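import Mathlib

/-!
# A finite cyclic model: `A - A = ℤ/q` and `{2x - y : x, y ∈ A}` small
-/

set_option autoImplicit false

open Finset

namespace Pool.Agent.R449.Cyclic

/-- distinct primes above `K`, indexed by a finite type -/
theorem exists_primes (ι : Type) [Fintype ι] (K : ℕ) :
    ∃ p : ι → ℕ, Function.Injective p ∧ ∀ i, (p i).Prime ∧ K < p i := by
  refine ⟨fun i => Nat.nth Nat.Prime (K + (Fintype.equivFin ι i : ℕ)), ?_, ?_⟩
  · intro i j h
    have h1 := Nat.nth_injective Nat.infinite_setOfPred_prime h
    have h2 : (Fintype.equivFin ι i : ℕ) = (Fintype.equivFin ι j : ℕ) := by omega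
    exact (Fintype.equivFin ι).injective (Fin.ext h2)
  · intro i
    refine ⟨Nat.prime_nth_prime _, ?_⟩
    have := Nat.add_two_le_nth_prime (K + (Fintype.equivFin ι i : ℕ))
    show K < Nat.nth Nat.Prime (K + (Fintype.equivFin ι i : ℕ))
    omega

section level

variable (p : Fin 4 → ℕ)

/-- the first level -/
abbrev U : Type := (i : Fin 4) → ZMod (p i)

/-- the index set of the second level: a pair of elements of the first level and two slots -/
abbrev J : Type := (U p × U p) × (Bool × Bool)

variable {p}
variable (P : Fin 4 ⊕ J p → ℕ)

/-- the whole module -/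
abbrev W : Type := (i : Fin 4 ⊕ J p) → ZMod (P i)

variable {P}

/-- restriction to the first level -/
def res (h : ∀ i, P (Sum.inl i) = p i) (w : W P) : U p :=
  fun i => (h i) ▸ (w (Sum.inl i))

open Classical in
/-- the two elements attached to `w`; `true` is the first slot: `a true w - a false w = w` -/
noncomputable def a (h : ∀ i, P (Sum.inl i) = p i) (s : Bool) (w : W P) : W P :=
  fun i => match i with
  | Sum.inl k =>
      if k = 0 then (if s then 0 else - w (Sum.inl k))
      else if k = 1 then (if s then w (Sum.inl k) else 0)
      else if k = 2 then (if s then - w (Sum.inl k) else - (2 * w (Sum.inl k)))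
      else (if s then 2 * w (Sum.inl k) else w (Sum.inl k))
  | Sum.inr j =>
      if (if res h w = j.1.1 then j.2.1 else j.2.2) = true then
        (if s then 0 else - w (Sum.inr j))
      else (if s then w (Sum.inr j) else 0)

theorem a_sub (h : ∀ i, P (Sum.inl i) = p i) (w : W P) : a h true w - a h false w = w := by
  funext i
  rcases i with k | j
  · simp only [a, Pi.sub_apply]
    fin_cases k <;> simp <;> ring
  · simp only [a, Pi.sub_apply]
    split_ifs <;> simp_all

/-- each value of `2x - y` has a coordinate equal to zero -/
theorem exists_zero (h : ∀ i, P (Sum.inl i) = p i) (s s' : Bool) (w w' : W P) :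
    ∃ i, (2 * a h s w - a h s' w') i = 0 := by
  by_cases hv : res h w = res h w'
  · -- the first level coordinates agree
    have hk : ∀ k : Fin 4, w (Sum.inl k) = w' (Sum.inl k) := by
      intro k
      have := congrFun hv k
      simp only [res] at this
      have key : ∀ (n m : ℕ) (e : n = m) (x y : ZMod n), (e ▸ x : ZMod m) = e ▸ y → x = y := by
        intro n m e x y hxy
        subst e
        exact hxy
      exact key _ _ (h k) _ _ this
    rcases s with _ | _ <;> rcases s' with _ | _
    · refine ⟨Sum.inl 1, ?_⟩
      simp [a]
    · refine ⟨Sum.inl 3, ?_⟩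
      simp [a, hk]
    · refine ⟨Sum.inl 2, ?_⟩
      simp [a, hk]
    · refine ⟨Sum.inl 0, ?_⟩
      simp [a]
  · refine ⟨Sum.inr ((res h w, res h w'), (s, s')), ?_⟩
    have h1 : a h s w (Sum.inr ((res h w, res h w'), (s, s'))) = 0 := by
      simp only [a]
      rcases s with _ | _ <;> simp
    have h2 : a h s' w' (Sum.inr ((res h w, res h w'), (s, s'))) = 0 := by
      have hv' : ¬ res h w' = res h w := fun e => hv e.symm
      simp only [a, if_neg hv']
      rcases s' with _ | _ <;> simp
    rw [Pi.sub_apply, Pi.mul_apply, h1, h2]
    simp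

end level

/-- number of vectors with a zero coordinate -/
theorem card_zero {ι : Type} [Fintype ι] [DecidableEq ι] (P : ι → ℕ) [∀ i, NeZero (P i)] (K : ℕ)
    (hK : ∀ i, K * Fintype.card ι < P i) (Z : Finset ((i : ι) → ZMod (P i)))
    (hZ : ∀ w ∈ Z, ∃ i, w i = 0) : K * Z.card ≤ Fintype.card ((i : ι) → ZMod (P i)) := by
  classical
  have h1 : ∀ i : ι, P i * (univ.filter (fun w : (i : ι) → ZMod (P i) => w i = 0)).card ≤
      Fintype.card ((i : ι) → ZMod (P i)) := by
    intro i
    have : ((univ : Finset (ZMod (P i))) ×ˢ
        (univ.filter (fun w : (i : ι) → ZMod (P i) => w i = 0))).card ≤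
        (univ : Finset ((i : ι) → ZMod (P i))).card := by
      apply card_le_card_of_injOn (fun x => Function.update x.2 i x.1) (fun _ _ => mem_coe.2 (mem_univ _))
      intro x hx y hy hxy
      rw [mem_coe, mem_product, mem_filter] at hx hy
      have hxy' : Function.update x.2 i x.1 = Function.update y.2 i y.1 := hxy
      have e1 : x.1 = y.1 := by
        have := congrFun hxy' i
        simpa using this
      have e2 : x.2 = y.2 := by
        funext k
        by_cases hk : k = i
        · subst hk
          rw [hx.2.2, hy.2.2]
        · have := congrFun hxy' k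
          simpa [hk] using this
      exact Prod.ext e1 e2
    rw [card_product, card_univ, card_univ, ZMod.card] at this
    exact this
  have h2 : Z ⊆ univ.biUnion (fun i => univ.filter (fun w : (i : ι) → ZMod (P i) => w i = 0)) := by
    intro w hw
    obtain ⟨i, hi⟩ := hZ w hw
    rw [mem_biUnion]
    exact ⟨i, mem_univ _, by rw [mem_filter]; exact ⟨mem_univ _, hi⟩⟩
  have h3 := (card_le_card h2).trans card_biUnion_le
  have h4 : K * Fintype.card ι * Z.card ≤ Fintype.card ι * Fintype.card ((i : ι) → ZMod (P i)) := by
    calc K * Fintype.card ι * Z.card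
        ≤ K * Fintype.card ι *
          ∑ i, (univ.filter (fun w : (i : ι) → ZMod (P i) => w i = 0)).card := Nat.mul_le_mul_left _ h3
      _ = ∑ i, K * Fintype.card ι * (univ.filter (fun w : (i : ι) → ZMod (P i) => w i = 0)).card := by
          rw [mul_sum]
      _ ≤ ∑ _i : ι, Fintype.card ((i : ι) → ZMod (P i)) := by
          apply sum_le_sum
          intro i _
          exact (Nat.mul_le_mul_right _ (hK i).le).trans (h1 i)
      _ = Fintype.card ι * Fintype.card ((i : ι) → ZMod (P i)) := by
          rw [sum_const, card_univ, smul_eq_mul]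
  rcases Nat.eq_zero_or_pos (Fintype.card ι) with h0 | h0
  · have : IsEmpty ι := Fintype.card_eq_zero_iff.1 h0
    have hZ0 : Z = ∅ := by
      rw [eq_empty_iff_forall_notMem]
      intro w hw
      obtain ⟨i, -⟩ := hZ w hw
      exact this.elim i
    rw [hZ0]
    simp
  · apply Nat.le_of_mul_le_mul_left _ h0
    calc Fintype.card ι * (K * Z.card) = K * Fintype.card ι * Z.card := by ring
      _ ≤ _ := h4

/-- **The cyclic model.** -/
theorem model : ∃ q : ℕ, 2 ≤ q ∧ ∃ A : Set (ZMod q), (∀ w : ZMod q, ∃ x ∈ A, ∃ y ∈ A, x - y = w) ∧
    ∃ G : Finset (ZMod q), (∀ x ∈ A, ∀ y ∈ A, 2 * x - y ∈ G) ∧ 10 * G.card ≤ q := by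
  classical
  obtain ⟨p, hpinj, hp⟩ := exists_primes (Fin 4) 100
  have hpne : ∀ i, NeZero (p i) := fun i => ⟨(hp i).1.ne_zero⟩
  -- the second level: all moduli above `K`
  obtain ⟨K, hK⟩ : ∃ K, K = 20 * Fintype.card (J p) + ∑ i, p i := ⟨_, rfl⟩
  obtain ⟨P2, hP2inj, hP2⟩ := exists_primes (J p) K
  obtain ⟨P, hP⟩ : ∃ P : Fin 4 ⊕ J p → ℕ, P = Sum.elim p P2 := ⟨_, rfl⟩
  have hinl : ∀ i, P (Sum.inl i) = p i := fun i => by rw [hP]; rfl
  have hinr : ∀ j, P (Sum.inr j) = P2 j := fun j => by rw [hP]; rfl
  have hprime : ∀ i, (P i).Prime := by
    rintro (i | j)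
    · rw [hinl]; exact (hp i).1
    · rw [hinr]; exact (hP2 j).1
  have hne : ∀ i, NeZero (P i) := fun i => ⟨(hprime i).ne_zero⟩
  have hple : ∀ i, p i ≤ K := by
    intro i
    rw [hK]
    exact (single_le_sum (f := p) (fun _ _ => Nat.zero_le _) (mem_univ i)).trans (Nat.le_add_left _ _)
  have hinj : Function.Injective P := by
    rintro (i | i) (j | j) h
    · rw [hinl, hinl] at h
      rw [hpinj h]
    · rw [hinl, hinr] at h
      have := hple i
      have := (hP2 j).2
      omega
    · rw [hinl, hinr] at h
      have := hple j
      have := (hP2 i).2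
      omega
    · rw [hinr, hinr] at h
      rw [hP2inj h]
  have hcop : Pairwise (Function.onFun Nat.Coprime P) := by
    intro i j hij
    exact (Nat.coprime_primes (hprime i) (hprime j)).2 (fun h => hij (hinj h))
  -- the ring isomorphism
  let e : ZMod (∏ i, P i) ≃+* W P := ZMod.prodEquivPi P hcop
  have hq : 2 ≤ ∏ i, P i := by
    calc 2 ≤ P (Sum.inl 0) := (hprime _).two_le
      _ ≤ ∏ i, P i := single_le_prod' (fun i _ => (hprime i).one_le) (mem_univ _)
  have hqne : NeZero (∏ i, P i) := ⟨by omega⟩
  refine ⟨∏ i, P i, hq, {x | ∃ s w, e x = a hinl s w}, ?_, ?_⟩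
  · intro w
    refine ⟨e.symm (a hinl true (e w)), ⟨true, e w, by simp⟩, e.symm (a hinl false (e w)),
      ⟨false, e w, by simp⟩, ?_⟩
    rw [← map_sub, a_sub, RingEquiv.symm_apply_apply]
  · refine ⟨univ.filter (fun x => ∃ i, e x i = 0), ?_, ?_⟩
    · rintro x ⟨s, w, hx⟩ y ⟨s', w', hy⟩
      rw [mem_filter]
      refine ⟨mem_univ _, ?_⟩
      rw [map_sub, map_mul, map_ofNat, hx, hy]
      exact exists_zero hinl s s' w w'
    · -- split: coordinates of the first and of the second level
      have hcard : Fintype.card (W P) = ∏ i, P i := by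
        rw [← Fintype.card_congr e.toEquiv, ZMod.card]
      have h1 : (univ.filter (fun x : ZMod (∏ i, P i) => ∃ i, e x i = 0)).card ≤
          (univ.filter (fun w : W P => ∃ i, w i = 0)).card := by
        apply card_le_card_of_injOn (fun x => e x)
        · intro x hx
          rw [mem_coe, mem_filter] at hx
          rw [mem_coe, mem_filter]
          exact ⟨mem_univ _, hx.2⟩
        · intro x _ y _ hxy
          exact e.injective hxy
      have h2 : ∀ i : Fin 4 ⊕ J p, P i * (univ.filter (fun w : W P => w i = 0)).card ≤
          Fintype.card (W P) := by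
        intro i
        have : ((univ : Finset (ZMod (P i))) ×ˢ (univ.filter (fun w : W P => w i = 0))).card ≤
            (univ : Finset (W P)).card := by
          apply card_le_card_of_injOn (fun x => Function.update x.2 i x.1)
            (fun _ _ => mem_coe.2 (mem_univ _))
          intro x hx y hy hxy
          rw [mem_coe, mem_product, mem_filter] at hx hy
          have hxy' : Function.update x.2 i x.1 = Function.update y.2 i y.1 := hxy
          have e1 : x.1 = y.1 := by
            have := congrFun hxy' i
            simpa using this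
          have e2 : x.2 = y.2 := by
            funext k
            by_cases hk : k = i
            · subst hk
              rw [hx.2.2, hy.2.2]
            · have := congrFun hxy' k
              simpa [hk] using this
          exact Prod.ext e1 e2
        rw [card_product, card_univ, card_univ, ZMod.card] at this
        exact this
      have h3 : (univ.filter (fun w : W P => ∃ i, w i = 0)) ⊆
          (univ.biUnion (fun i : Fin 4 => univ.filter (fun w : W P => w (Sum.inl i) = 0))) ∪
          (univ.biUnion (fun j : J p => univ.filter (fun w : W P => w (Sum.inr j) = 0))) := by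
        intro w hw
        rw [mem_filter] at hw
        obtain ⟨i | j, hi⟩ := hw.2
        · rw [mem_union, mem_biUnion]
          exact Or.inl ⟨i, mem_univ _, by rw [mem_filter]; exact ⟨mem_univ _, hi⟩⟩
        · rw [mem_union, mem_biUnion, mem_biUnion]
          exact Or.inr ⟨j, mem_univ _, by rw [mem_filter]; exact ⟨mem_univ _, hi⟩⟩
      have h4 : 100 * (univ.biUnion
          (fun i : Fin 4 => univ.filter (fun w : W P => w (Sum.inl i) = 0))).card ≤
          4 * Fintype.card (W P) := by
        calc 100 * (univ.biUnion
              (fun i : Fin 4 => univ.filter (fun w : W P => w (Sum.inl i) = 0))).card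
            ≤ 100 * ∑ i : Fin 4, (univ.filter (fun w : W P => w (Sum.inl i) = 0)).card :=
              Nat.mul_le_mul_left _ card_biUnion_le
          _ = ∑ i : Fin 4, 100 * (univ.filter (fun w : W P => w (Sum.inl i) = 0)).card := by
              rw [mul_sum]
          _ ≤ ∑ _i : Fin 4, Fintype.card (W P) := by
              apply sum_le_sum
              intro i _
              refine le_trans (Nat.mul_le_mul_right _ ?_) (h2 (Sum.inl i))
              rw [hinl]
              exact (hp i).2.le
          _ = 4 * Fintype.card (W P) := by
              rw [sum_const, card_univ, Fintype.card_fin, smul_eq_mul]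
      have h5 : 20 * (univ.biUnion
          (fun j : J p => univ.filter (fun w : W P => w (Sum.inr j) = 0))).card ≤
          Fintype.card (W P) := by
        have hJ : 0 < Fintype.card (J p) := Fintype.card_pos
        apply Nat.le_of_mul_le_mul_left _ hJ
        calc Fintype.card (J p) * (20 * (univ.biUnion
              (fun j : J p => univ.filter (fun w : W P => w (Sum.inr j) = 0))).card)
            ≤ Fintype.card (J p) *
              (20 * ∑ j : J p, (univ.filter (fun w : W P => w (Sum.inr j) = 0)).card) :=
              Nat.mul_le_mul_left _ (Nat.mul_le_mul_left _ card_biUnion_le)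
          _ = ∑ j : J p, (20 * Fintype.card (J p)) *
              (univ.filter (fun w : W P => w (Sum.inr j) = 0)).card := by
              rw [← mul_sum]
              ring
          _ ≤ ∑ _j : J p, Fintype.card (W P) := by
              apply sum_le_sum
              intro j _
              refine le_trans (Nat.mul_le_mul_right _ ?_) (h2 (Sum.inr j))
              rw [hinr]
              have := (hP2 j).2
              omega
          _ = Fintype.card (J p) * Fintype.card (W P) := by
              rw [sum_const, card_univ, smul_eq_mul]
      have h6 := (card_le_card h3).trans (card_union_le _ _)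
      rw [hcard] at h4 h5
      omega

end Pool.Agent.R449.Cyclic
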