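import Mathlib

/-!
# Greedy hitting sets
-/

set_option autoImplicit false

open Finset

namespace Pool.Agent.R449.HitSet

theorem greedy {ι α : Type*} [DecidableEq α] (U : Finset α) (K : Finset ι)
    (F : ι → Finset α) (s : ℕ) (hs : 0 < s) (hF : ∀ k ∈ K, F k ⊆ U ∧ s ≤ (F k).card) (t : ℕ) :
    ∃ S ⊆ U, S.card ≤ t ∧
      ((K.filter (fun k => Disjoint (F k) S)).card : ℝ) ≤ K.card * (1 - (s : ℝ) / U.card) ^ t := by
  classical
  induction t with
  | zero =>
    refine ⟨∅, empty_subset _, by simp, ?_⟩
    rw [pow_zero, mul_one]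
    exact_mod_cast card_filter_le _ _
  | succ t ih =>
    obtain ⟨S, hSU, hSc, hS⟩ := ih
    set K' := K.filter (fun k => Disjoint (F k) S) with hK'
    rcases K'.eq_empty_or_nonempty with h0 | hne
    · refine ⟨S, hSU, by omega, ?_⟩
      have h0' : K.filter (fun k => Disjoint (F k) S) = ∅ := h0
      rw [h0', card_empty, Nat.cast_zero]
      rcases K.eq_empty_or_nonempty with hK0 | ⟨k, hk⟩
      · rw [hK0, card_empty, Nat.cast_zero, zero_mul]
      · have h1 : s ≤ U.card := (hF k hk).2.trans (card_le_card (hF k hk).1)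
        have h2 : (0 : ℝ) ≤ 1 - (s : ℝ) / U.card := by
          rw [sub_nonneg]
          apply div_le_one_of_le₀ _ (Nat.cast_nonneg _)
          exact_mod_cast h1
        positivity
    · obtain ⟨k0, hk0⟩ := hne
      have hk0' := (mem_filter.1 hk0).1
      have hsU : s ≤ U.card := (hF k0 hk0').2.trans (card_le_card (hF k0 hk0').1)
      have hUpos : (0 : ℝ) < U.card := by
        have : 0 < U.card := by omega
        exact_mod_cast this
      -- double counting
      have h1 : ∑ u ∈ U, (K'.filter (fun k => u ∈ F k)).card = ∑ k ∈ K', (F k).card := by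
        simp_rw [card_filter]
        rw [sum_comm]
        refine sum_congr rfl (fun k hk => ?_)
        rw [← card_filter]
        congr 1
        ext u
        rw [mem_filter]
        exact ⟨fun h => h.2, fun h => ⟨(hF k (mem_filter.1 hk).1).1 h, h⟩⟩
      have h2 : s * K'.card ≤ ∑ k ∈ K', (F k).card := by
        rw [mul_comm, ← smul_eq_mul, ← sum_const]
        exact sum_le_sum (fun k hk => (hF k (mem_filter.1 hk).1).2)
      obtain ⟨u, hu, hu2⟩ : ∃ u ∈ U, s * K'.card ≤ (K'.filter (fun k => u ∈ F k)).card * U.card := by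
        by_contra hcon
        push Not at hcon
        have hUne : U.Nonempty := by
          rw [← card_pos]; omega
        have h3 : (∑ u ∈ U, (K'.filter (fun k => u ∈ F k)).card) * U.card <
            ∑ u ∈ U, s * K'.card := by
          rw [sum_mul]
          exact sum_lt_sum_of_nonempty hUne hcon
        rw [sum_const, smul_eq_mul, h1, mul_comm] at h3
        have := Nat.mul_le_mul_left U.card h2
        omega
      refine ⟨insert u S, insert_subset hu hSU, (card_insert_le _ _).trans (by omega), ?_⟩
      have h4 : K.filter (fun k => Disjoint (F k) (insert u S)) ⊆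
          K' \ K'.filter (fun k => u ∈ F k) := by
        intro k hk
        rw [mem_filter, disjoint_insert_right] at hk
        rw [mem_sdiff, mem_filter, hK', mem_filter]
        refine ⟨⟨hk.1, hk.2.2⟩, fun h => hk.2.1 h.2⟩
      have h5 := card_le_card h4
      rw [card_sdiff_of_subset (filter_subset _ _)] at h5
      have h6 : (K'.filter (fun k => u ∈ F k)).card ≤ K'.card := card_filter_le _ _
      have h7 : ((K.filter (fun k => Disjoint (F k) (insert u S))).card : ℝ) ≤
          K'.card - (K'.filter (fun k => u ∈ F k)).card := by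
        rw [← Nat.cast_sub h6]
        exact_mod_cast h5
      have h8 : (s : ℝ) * K'.card / U.card ≤ (K'.filter (fun k => u ∈ F k)).card := by
        rw [div_le_iff₀ hUpos]
        exact_mod_cast hu2
      have h9 : (0 : ℝ) ≤ 1 - (s : ℝ) / U.card := by
        rw [sub_nonneg]
        apply div_le_one_of_le₀ _ (Nat.cast_nonneg _)
        exact_mod_cast hsU
      calc ((K.filter (fun k => Disjoint (F k) (insert u S))).card : ℝ)
          ≤ K'.card - (K'.filter (fun k => u ∈ F k)).card := h7
        _ ≤ K'.card - (s : ℝ) * K'.card / U.card := by linarith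
        _ = K'.card * (1 - (s : ℝ) / U.card) := by ring
        _ ≤ (K.card * (1 - (s : ℝ) / U.card) ^ t) * (1 - (s : ℝ) / U.card) :=
            mul_le_mul_of_nonneg_right hS h9
        _ = K.card * (1 - (s : ℝ) / U.card) ^ (t + 1) := by ring

theorem hitting {ι α : Type*} [DecidableEq α] (U : Finset α) (K : Finset ι)
    (F : ι → Finset α) (s : ℕ) (hs : 0 < s) (hF : ∀ k ∈ K, F k ⊆ U ∧ s ≤ (F k).card) :
    ∃ S ⊆ U, (S.card : ℝ) ≤ (U.card : ℝ) / s * Real.log K.card + 2 ∧
      ∀ k ∈ K, ∃ u ∈ F k, u ∈ S := by
  classical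
  rcases K.eq_empty_or_nonempty with hK0 | ⟨k0, hk0⟩
  · refine ⟨∅, empty_subset _, ?_, ?_⟩
    · rw [hK0]
      simp
    · intro k hk
      rw [hK0] at hk
      exact absurd hk (notMem_empty k)
  have hsU : s ≤ U.card := (hF k0 hk0).2.trans (card_le_card (hF k0 hk0).1)
  have hspos : (0 : ℝ) < s := by exact_mod_cast hs
  have hUpos : (0 : ℝ) < U.card := by
    have : 0 < U.card := by omega
    exact_mod_cast this
  have hKpos : (0 : ℝ) < K.card := by exact_mod_cast card_pos.2 ⟨k0, hk0⟩
  have hK1 : (1 : ℝ) ≤ K.card := by exact_mod_cast card_pos.2 ⟨k0, hk0⟩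
  set t : ℕ := ⌊(U.card : ℝ) / s * Real.log K.card⌋₊ + 1 with ht
  have hlog : 0 ≤ (U.card : ℝ) / s * Real.log K.card :=
    mul_nonneg (by positivity) (Real.log_nonneg hK1)
  have ht1 : (U.card : ℝ) / s * Real.log K.card < t := by
    rw [ht]
    push_cast
    exact Nat.lt_floor_add_one _
  have ht2 : (t : ℝ) ≤ (U.card : ℝ) / s * Real.log K.card + 1 := by
    rw [ht]
    push_cast
    linarith [Nat.floor_le hlog]
  obtain ⟨S, hSU, hSc, hS⟩ := greedy U K F s hs hF t
  refine ⟨S, hSU, ?_, ?_⟩
  · have : (S.card : ℝ) ≤ t := by exact_mod_cast hSc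
    linarith
  · have h9 : (0 : ℝ) ≤ 1 - (s : ℝ) / U.card := by
      rw [sub_nonneg]
      apply div_le_one_of_le₀ _ (Nat.cast_nonneg _)
      exact_mod_cast hsU
    have h1 : K.card * (1 - (s : ℝ) / U.card) ^ t < 1 := by
      have e1 : (1 - (s : ℝ) / U.card) ≤ Real.exp (-((s : ℝ) / U.card)) := by
        have := Real.add_one_le_exp (-((s : ℝ) / U.card))
        linarith
      have e2 : (1 - (s : ℝ) / U.card) ^ t ≤ Real.exp (-((s : ℝ) / U.card) * t) := by
        calc (1 - (s : ℝ) / U.card) ^ t ≤ (Real.exp (-((s : ℝ) / U.card))) ^ t :=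
              pow_le_pow_left₀ h9 e1 t
          _ = Real.exp (-((s : ℝ) / U.card) * t) := by
              rw [← Real.exp_nat_mul]
              congr 1
              ring
      have e3 : Real.exp (-((s : ℝ) / U.card) * t) < Real.exp (-Real.log K.card) := by
        apply Real.exp_lt_exp.2
        have : Real.log K.card < (s : ℝ) / U.card * t := by
          have h2 : (s : ℝ) / U.card * ((U.card : ℝ) / s * Real.log K.card) <
              (s : ℝ) / U.card * t := mul_lt_mul_of_pos_left ht1 (by positivity)
          have h3 : (s : ℝ) / U.card * ((U.card : ℝ) / s * Real.log K.card) = Real.log K.card := by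
            field_simp
          linarith
        linarith
      rw [Real.exp_neg, Real.exp_log hKpos] at e3
      calc K.card * (1 - (s : ℝ) / U.card) ^ t ≤ K.card * Real.exp (-((s : ℝ) / U.card) * t) :=
            mul_le_mul_of_nonneg_left e2 hKpos.le
        _ < K.card * (K.card : ℝ)⁻¹ := mul_lt_mul_of_pos_left e3 hKpos
        _ = 1 := mul_inv_cancel₀ hKpos.ne'
    have h2 : (K.filter (fun k => Disjoint (F k) S)).card = 0 := by
      have : ((K.filter (fun k => Disjoint (F k) S)).card : ℝ) < 1 := lt_of_le_of_lt hS h1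
      have : (K.filter (fun k => Disjoint (F k) S)).card < 1 := by exact_mod_cast this
      omega
    intro k hk
    by_contra hcon
    push Not at hcon
    have : k ∈ K.filter (fun k => Disjoint (F k) S) := by
      rw [mem_filter]
      exact ⟨hk, disjoint_left.2 hcon⟩
    rw [card_eq_zero.1 h2] at this
    exact absurd this (notMem_empty k)

end Pool.Agent.R449.HitSet
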