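import Mathlib

/-!
# Divisors in short intervals: the determinant bound

If `v_1, ..., v_k` are distinct positive integers with `v_i s_i = D`, then
`∏ v_i ^ B ≤ D ^ (∑_{c<k} (B - c)) * L ^ (k(k-1)/2)` where `L` bounds the differences.
-/

set_option autoImplicit false

open Finset Matrix

namespace Pool.Agent.R449.HypDet

theorem card_pairs (k : ℕ) : ∑ i : Fin k, (Ioi i).card = k * (k - 1) / 2 := by
  have h1 : ∀ i : Fin k, (Ioi i).card = k - 1 - (i : ℕ) := by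
    intro i
    rw [Fin.card_Ioi]
  rw [sum_congr rfl (fun i _ => h1 i), Fin.sum_univ_eq_sum_range (fun i => k - 1 - i) k,
    sum_range_reflect (fun i => i) k, sum_range_id]

theorem det_bound {k B : ℕ} (v s : Fin k → ℤ) (D : ℤ) (hD : 0 < D) (hv : ∀ i, 0 < v i)
    (hvs : ∀ i, v i * s i = D) (hinj : Function.Injective v) (L : ℝ)
    (hL : ∀ i j, |((v j : ℤ) : ℝ) - v i| ≤ L) :
    ∏ i, ((v i : ℤ) : ℝ) ^ B ≤ (D : ℝ) ^ (∑ c : Fin k, (B - (c : ℕ))) * L ^ (k * (k - 1) / 2) := by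
  set M : Matrix (Fin k) (Fin k) ℤ :=
    Matrix.of (fun i c => if B ≤ (c : ℕ) then v i ^ ((c : ℕ) - B) else s i ^ (B - (c : ℕ))) with hM
  have h1 : Matrix.diagonal (fun i => v i ^ B) * M =
      Matrix.vandermonde v * Matrix.diagonal (fun c : Fin k => D ^ (B - (c : ℕ))) := by
    ext i c
    rw [Matrix.diagonal_mul, Matrix.mul_diagonal, Matrix.vandermonde_apply, hM]
    simp only [Matrix.of_apply]
    split_ifs with h
    · rw [← pow_add, Nat.add_sub_of_le h, Nat.sub_eq_zero_of_le h, pow_zero, mul_one]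
    · have h2 : B = (c : ℕ) + (B - (c : ℕ)) := by omega
      calc v i ^ B * s i ^ (B - (c : ℕ)) = v i ^ ((c : ℕ) + (B - (c : ℕ))) * s i ^ (B - (c : ℕ)) := by
            rw [← h2]
        _ = v i ^ (c : ℕ) * (v i * s i) ^ (B - (c : ℕ)) := by
            rw [pow_add, mul_pow]
            ring
        _ = v i ^ (c : ℕ) * D ^ (B - (c : ℕ)) := by rw [hvs]
  have h2 := congrArg Matrix.det h1
  rw [Matrix.det_mul, Matrix.det_mul, Matrix.det_diagonal, Matrix.det_diagonal,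
    prod_pow_eq_pow_sum] at h2
  have h3 : (Matrix.vandermonde v).det ≠ 0 := Matrix.det_vandermonde_ne_zero_iff.2 hinj
  have h4 : M.det ≠ 0 := by
    intro h
    rw [h, mul_zero] at h2
    have := mul_ne_zero h3 (pow_ne_zero (∑ c : Fin k, (B - (c : ℕ))) hD.ne')
    exact this h2.symm
  have h5 : (1 : ℝ) ≤ |((M.det : ℤ) : ℝ)| := by
    have : (1 : ℤ) ≤ |M.det| := Int.one_le_abs h4
    exact_mod_cast this
  have h6 : |(((Matrix.vandermonde v).det : ℤ) : ℝ)| ≤ L ^ (k * (k - 1) / 2) := by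
    rw [Matrix.det_vandermonde, ← card_pairs, ← prod_pow_eq_pow_sum]
    push_cast
    rw [abs_prod]
    refine prod_le_prod (fun i _ => abs_nonneg _) (fun i _ => ?_)
    rw [abs_prod, ← prod_const]
    exact prod_le_prod (fun j _ => abs_nonneg _) (fun j _ => hL i j)
  have h7 : (0 : ℝ) ≤ ∏ i, ((v i : ℤ) : ℝ) ^ B :=
    prod_nonneg (fun i _ => pow_nonneg (by exact_mod_cast (hv i).le) _)
  have h8 : (∏ i, ((v i : ℤ) : ℝ) ^ B) * ((M.det : ℤ) : ℝ) =
      (((Matrix.vandermonde v).det : ℤ) : ℝ) * (D : ℝ) ^ (∑ c : Fin k, (B - (c : ℕ))) := by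
    exact_mod_cast h2
  have hD' : (0 : ℝ) ≤ (D : ℝ) ^ (∑ c : Fin k, (B - (c : ℕ))) :=
    pow_nonneg (by exact_mod_cast hD.le) _
  calc ∏ i, ((v i : ℤ) : ℝ) ^ B ≤ (∏ i, ((v i : ℤ) : ℝ) ^ B) * |((M.det : ℤ) : ℝ)| :=
        le_mul_of_one_le_right h7 h5
    _ = |(∏ i, ((v i : ℤ) : ℝ) ^ B) * ((M.det : ℤ) : ℝ)| := by
        rw [abs_mul, abs_of_nonneg h7]
    _ = |(((Matrix.vandermonde v).det : ℤ) : ℝ)| * (D : ℝ) ^ (∑ c : Fin k, (B - (c : ℕ))) := by
        rw [h8, abs_mul, abs_of_nonneg hD']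
    _ ≤ L ^ (k * (k - 1) / 2) * (D : ℝ) ^ (∑ c : Fin k, (B - (c : ℕ))) :=
        mul_le_mul_of_nonneg_right h6 hD'
    _ = _ := mul_comm _ _

theorem two_mul_sum_sub {k B : ℕ} (hB : B ≤ k) :
    2 * ∑ c : Fin k, (B - (c : ℕ)) = B * (B + 1) := by
  rw [Fin.sum_univ_eq_sum_range (fun c => B - c) k]
  obtain ⟨d, rfl⟩ := Nat.exists_eq_add_of_le hB
  rw [sum_range_add]
  have h1 : ∑ x ∈ range d, (B - (B + x)) = 0 := sum_eq_zero (fun x _ => by omega)
  rw [h1, add_zero]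
  have h2 : ∑ x ∈ range B, (B - x) = ∑ x ∈ range (B + 1), x := by
    rw [← sum_range_reflect (fun i => i) (B + 1), sum_range_succ]
    simp
  rw [h2, mul_comm, sum_range_id_mul_two]
  simp [mul_comm]

theorem two_mul_choose (k : ℕ) : 2 * (k * (k - 1) / 2) = k * (k - 1) := by
  have : 2 ∣ k * (k - 1) := (Nat.even_mul_pred_self k).two_dvd
  omega

end Pool.Agent.R449.HypDet
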