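import Mathlib
import Pool.Agent.R449.HypDet

/-!
# Few representations of `D` as a difference of two squares from a short interval
-/

set_option autoImplicit false

open Finset Filter

namespace Pool.Agent.R449.HypDiv

open Pool.Agent.R449.HypDet

/-- choice of the parameters -/
theorem exists_params (α : ℝ) (h0 : 1 / 2 ≤ α) (h1 : α ^ 2 + α < 1) :
    ∃ k B : ℕ, B < k ∧
      (1 + α) * (B * (B + 1)) + (2 * α - 1) * (k * (k - 1)) - 2 * α * (B * k) < (0 : ℝ) := by
  have hα1 : α < 1 := by nlinarith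
  have hpos : 0 < 1 + α := by linarith
  obtain ⟨k, hk⟩ := exists_nat_gt (3 * (1 + α) / (1 - α - α ^ 2) + 1)
  have hc : 0 < 1 - α - α ^ 2 := by linarith
  have hk1 : (1 : ℝ) < k := by
    have : 0 < 3 * (1 + α) / (1 - α - α ^ 2) := by positivity
    linarith
  have hk2 : 3 * (1 + α) < (1 - α - α ^ 2) * k := by
    have : 3 * (1 + α) / (1 - α - α ^ 2) < k := by linarith
    rw [div_lt_iff₀ hc] at this
    linarith
  set β : ℝ := α / (1 + α) with hβ
  have hβ1 : (1 + α) * β = α := by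
    rw [hβ]; field_simp
  have hβ0 : 0 ≤ β := by positivity
  have hβ2 : β < 1 := by
    rw [hβ, div_lt_one hpos]; linarith
  have hb0 : 0 ≤ β * k := by positivity
  refine ⟨k, ⌊β * k⌋₊, ?_, ?_⟩
  · have h1 : (⌊β * k⌋₊ : ℝ) ≤ β * k := Nat.floor_le hb0
    have h2 : β * k < k := by nlinarith
    exact_mod_cast lt_of_le_of_lt h1 h2
  · set B : ℝ := (⌊β * k⌋₊ : ℝ) with hB
    have hB1 : B ≤ β * k := Nat.floor_le hb0
    have hB2 : β * k < B + 1 := Nat.lt_floor_add_one _
    have hB0 : 0 ≤ B := Nat.cast_nonneg _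
    -- (1+α)B² - 2αBk = (1+α)(βk - B)² - αβk²
    have e1 : (1 + α) * B ^ 2 - 2 * α * (B * k) = (1 + α) * (β * k - B) ^ 2 - α * β * k ^ 2 := by
      have : α = (1 + α) * β := hβ1.symm
      have h3 : (1 + α) * (β * k - B) ^ 2 =
          ((1 + α) * β) * β * k ^ 2 - 2 * ((1 + α) * β) * (B * k) + (1 + α) * B ^ 2 := by ring
      rw [h3, hβ1]
      ring
    have e2 : (β * k - B) ^ 2 ≤ 1 := by
      have : 0 ≤ β * k - B := by linarith
      nlinarith
    have e3 : (1 + α) * B ≤ α * k := by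
      have : (1 + α) * B ≤ (1 + α) * (β * k) := by nlinarith
      calc (1 + α) * B ≤ (1 + α) * (β * k) := this
        _ = ((1 + α) * β) * k := by ring
        _ = α * k := by rw [hβ1]
    have e4 : (1 + α) * ((2 * α - 1) - α * β) = - (1 - α - α ^ 2) := by
      have : (1 + α) * ((2 * α - 1) - α * β) = (1 + α) * (2 * α - 1) - α * ((1 + α) * β) := by ring
      rw [this, hβ1]
      ring
    have e5 : (1 + α) * (((2 * α - 1) - α * β) * k ^ 2) < - (3 * (1 + α) * k) := by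
      have : (1 + α) * (((2 * α - 1) - α * β) * k ^ 2) = - ((1 - α - α ^ 2) * k) * k := by
        rw [← mul_assoc, e4]; ring
      rw [this]
      nlinarith
    have e6 : ((2 * α - 1) - α * β) * (k : ℝ) ^ 2 < - (3 * k) := by
      by_contra h
      push Not at h
      have := mul_le_mul_of_nonneg_left h hpos.le
      nlinarith
    have e7 : (0 : ℝ) ≤ (2 * α - 1) * k := by
      have : 0 ≤ 2 * α - 1 := by linarith
      positivity
    nlinarith

theorem bound_core {k B : ℕ} (hBk : B < k) (α N : ℝ) (h1 : α ≤ 1) (hN : 1 ≤ N)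
    (D : ℤ) (hD : 0 < D) (x z : Fin k → ℤ)
    (hx : ∀ i, N ≤ x i ∧ (x i : ℝ) ≤ N + N ^ α) (hz : ∀ i, N ≤ z i ∧ (z i : ℝ) ≤ N + N ^ α)
    (hD2 : ∀ i, x i ^ 2 - z i ^ 2 = D) (hinj : Function.Injective (fun i => (x i, z i))) :
    (1 : ℝ) ≤ 2 ^ (B * k) * 4 ^ (∑ c : Fin k, (B - (c : ℕ))) *
      N ^ (((1 + α) * (B * (B + 1)) + (2 * α - 1) * (k * (k - 1)) - 2 * α * (B * k)) / 2) := by
  have hN0 : 0 < N := by linarith
  have hNα : N ^ α ≤ N := by
    calc N ^ α ≤ N ^ (1 : ℝ) := Real.rpow_le_rpow_of_exponent_le hN h1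
      _ = N := Real.rpow_one N
  have hNα0 : 0 < N ^ α := Real.rpow_pos_of_pos hN0 _
  set v : Fin k → ℤ := fun i => x i - z i with hv
  set s : Fin k → ℤ := fun i => x i + z i with hs
  have hvs : ∀ i, v i * s i = D := by
    intro i
    rw [← hD2 i, hv, hs]
    ring
  have hs1 : ∀ i, 2 * N ≤ (s i : ℝ) ∧ (s i : ℝ) ≤ 2 * N + 2 * N ^ α := by
    intro i
    rw [hs]
    push_cast
    constructor <;> linarith [(hx i).1, (hx i).2, (hz i).1, (hz i).2]
  have hs0 : ∀ i, 0 < s i := by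
    intro i
    have : (0 : ℝ) < s i := by linarith [(hs1 i).1]
    exact_mod_cast this
  have hv0 : ∀ i, 0 < v i := by
    intro i
    by_contra h
    push Not at h
    have := mul_nonpos_of_nonpos_of_nonneg h (hs0 i).le
    rw [hvs i] at this
    omega
  have hvinj : Function.Injective v := by
    intro i j hij
    have e1 : s i = s j := by
      have e2 : v i * s i = v i * s j := by rw [hvs i, hij, hvs j]
      exact mul_left_cancel₀ (hv0 i).ne' e2
    apply hinj
    have e3 : x i - z i = x j - z j := hij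
    have e4 : x i + z i = x j + z j := e1
    show (x i, z i) = (x j, z j)
    rw [Prod.mk.injEq]
    constructor <;> omega
  have hk : 0 < k := by omega
  obtain ⟨i0, -, hi0⟩ := exists_max_image (univ : Finset (Fin k)) v ⟨⟨0, hk⟩, mem_univ _⟩
  set V : ℝ := (v i0 : ℝ) with hV
  have hVmax : ∀ i, (v i : ℝ) ≤ V := fun i => by
    have := hi0 i (mem_univ i)
    rw [hV]
    exact_mod_cast this
  have hV1 : 1 ≤ V := by
    have : 1 ≤ v i0 := hv0 i0
    rw [hV]
    exact_mod_cast this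
  have hV0 : 0 < V := by linarith
  have hVα : V ≤ N ^ α := by
    rw [hV, hv]
    push_cast
    linarith [(hx i0).2, (hz i0).1]
  have hvsR : ∀ i, (v i : ℝ) * s i = D := fun i => by exact_mod_cast hvs i
  have h2 : ∀ i, V / 2 ≤ v i := by
    intro i
    have e1 : V * (s i0) = v i * s i := by rw [hvsR i, hV, hvsR i0]
    have e2 : V * (2 * N) ≤ v i * (4 * N) := by
      calc V * (2 * N) ≤ V * s i0 := mul_le_mul_of_nonneg_left (hs1 i0).1 hV0.le
        _ = v i * s i := e1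
        _ ≤ v i * (4 * N) := by
            refine mul_le_mul_of_nonneg_left ?_ (by exact_mod_cast (hv0 i).le)
            linarith [(hs1 i).2]
    nlinarith
  set L : ℝ := V * N ^ (α - 1) with hL
  have hL0 : 0 ≤ L := by positivity
  have h3 : ∀ i j, |((v j : ℤ) : ℝ) - v i| ≤ L := by
    intro i j
    have e1 : ((v j : ℝ) - v i) * s i = v j * ((s i : ℝ) - s j) := by
      have e1 := hvsR i
      have e2 := hvsR j
      linear_combination e2 - e1
    have e2 : |(v j : ℝ) - v i| * s i = v j * |(s i : ℝ) - s j| := by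
      have e3 : (0 : ℝ) < s i := by exact_mod_cast hs0 i
      have e4 : (0 : ℝ) < v j := by exact_mod_cast hv0 j
      calc |(v j : ℝ) - v i| * s i = |((v j : ℝ) - v i) * s i| := by rw [abs_mul, abs_of_pos e3]
        _ = |v j * ((s i : ℝ) - s j)| := by rw [e1]
        _ = _ := by rw [abs_mul, abs_of_pos e4]
    have e3 : |(s i : ℝ) - s j| ≤ 2 * N ^ α := by
      rw [abs_le]
      constructor <;> linarith [(hs1 i).1, (hs1 i).2, (hs1 j).1, (hs1 j).2]
    have e4 : |(v j : ℝ) - v i| * (2 * N) ≤ V * (2 * N ^ α) := by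
      calc |(v j : ℝ) - v i| * (2 * N) ≤ |(v j : ℝ) - v i| * s i :=
            mul_le_mul_of_nonneg_left (hs1 i).1 (abs_nonneg _)
        _ = v j * |(s i : ℝ) - s j| := e2
        _ ≤ V * (2 * N ^ α) := mul_le_mul (hVmax j) e3 (abs_nonneg _) hV0.le
    have e5 : N ^ α = N ^ (α - 1) * N := by
      rw [Real.rpow_sub_one hN0.ne']
      field_simp
    rw [e5] at e4
    have e6 : |(v j : ℝ) - v i| * (2 * N) ≤ L * (2 * N) := by
      rw [hL]
      linarith
    exact le_of_mul_le_mul_right e6 (by linarith)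
  have hDle : (D : ℝ) ≤ 4 * N * V := by
    rw [← hvsR i0, ← hV]
    have : (s i0 : ℝ) ≤ 4 * N := by linarith [(hs1 i0).2]
    nlinarith
  have hD0 : (0 : ℝ) ≤ D := by exact_mod_cast hD.le
  have h4 := det_bound (B := B) v s D hD hv0 hvs hvinj L h3
  set P : ℕ := ∑ c : Fin k, (B - (c : ℕ)) with hP
  set Q : ℕ := k * (k - 1) / 2 with hQ
  have hP2 : 2 * P = B * (B + 1) := two_mul_sum_sub hBk.le
  have hQ2 : 2 * Q = k * (k - 1) := two_mul_choose k
  have h5 : (V / 2) ^ (B * k) ≤ (4 * N * V) ^ P * L ^ Q := by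
    calc (V / 2) ^ (B * k) = ∏ _i : Fin k, (V / 2) ^ B := by
          rw [prod_const, card_univ, Fintype.card_fin, ← pow_mul]
      _ ≤ ∏ i, ((v i : ℤ) : ℝ) ^ B :=
          prod_le_prod (fun i _ => by positivity)
            (fun i _ => pow_le_pow_left₀ (by positivity) (h2 i) _)
      _ ≤ (D : ℝ) ^ P * L ^ Q := h4
      _ ≤ (4 * N * V) ^ P * L ^ Q :=
          mul_le_mul_of_nonneg_right (pow_le_pow_left₀ hD0 hDle _) (pow_nonneg hL0 _)
  -- the exponent R
  obtain ⟨d, hd⟩ : ∃ d, k = B + 1 + d := Nat.exists_eq_add_of_le hBk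
  set R : ℕ := (d + 1) * d / 2 with hR
  have hR2 : 2 * R = (d + 1) * d := by
    have := two_mul_choose (d + 1)
    simpa using this
  have hPQ : P + Q = B * k + R := by
    have e1 : 2 * (P + Q) = 2 * (B * k + R) := by
      rw [mul_add, mul_add, hP2, hQ2, hR2, hd]
      have : B + 1 + d - 1 = B + d := by omega
      rw [this]
      ring
    omega
  have h6 : V ^ (B * k) ≤ 2 ^ (B * k) * (4 ^ P * N ^ P * (V ^ (B * k) * V ^ R) * (N ^ (α - 1)) ^ Q) := by
    have e1 : V ^ (B * k) = 2 ^ (B * k) * (V / 2) ^ (B * k) := by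
      rw [← mul_pow]
      congr 1
      ring
    have e2 : (4 * N * V) ^ P * L ^ Q =
        4 ^ P * N ^ P * (V ^ (B * k) * V ^ R) * (N ^ (α - 1)) ^ Q := by
      rw [← pow_add, ← hPQ, hL, mul_pow, mul_pow, mul_pow, pow_add]
      ring
    rw [← e2]
    calc V ^ (B * k) = 2 ^ (B * k) * (V / 2) ^ (B * k) := e1
      _ ≤ _ := mul_le_mul_of_nonneg_left h5 (by positivity)
  have h7 : 1 ≤ 2 ^ (B * k) * 4 ^ P * (N ^ P * V ^ R * (N ^ (α - 1)) ^ Q) := by
    have e1 : 0 < V ^ (B * k) := by positivity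
    refine le_of_mul_le_mul_left ?_ e1
    rw [mul_one]
    refine h6.trans_eq ?_
    ring
  have h8 : N ^ P * V ^ R * (N ^ (α - 1)) ^ Q ≤
      N ^ (((1 + α) * (B * (B + 1)) + (2 * α - 1) * (k * (k - 1)) - 2 * α * (B * k)) / 2) := by
    have e1 : N ^ P * V ^ R * (N ^ (α - 1)) ^ Q ≤ N ^ P * (N ^ α) ^ R * (N ^ (α - 1)) ^ Q := by
      gcongr
    refine e1.trans_eq ?_
    rw [← Real.rpow_natCast N P, ← Real.rpow_natCast (N ^ α) R, ← Real.rpow_natCast (N ^ (α - 1)) Q,
      ← Real.rpow_mul hN0.le, ← Real.rpow_mul hN0.le, ← Real.rpow_add hN0, ← Real.rpow_add hN0]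
    congr 1
    have f1 : (2 : ℝ) * P = B * (B + 1) := by exact_mod_cast hP2
    have f2 : (2 : ℝ) * Q = k * (k - 1) := by
      have : ((2 * Q : ℕ) : ℝ) = ((k * (k - 1) : ℕ) : ℝ) := by rw [hQ2]
      rw [Nat.cast_mul, Nat.cast_mul, Nat.cast_sub hk] at this
      simpa using this
    have f3 : (P : ℝ) + Q = B * k + R := by exact_mod_cast hPQ
    have f4 : (R : ℝ) = P + Q - B * k := by linarith
    rw [f4, ← f1, ← f2]
    ring
  calc (1 : ℝ) ≤ 2 ^ (B * k) * 4 ^ P * (N ^ P * V ^ R * (N ^ (α - 1)) ^ Q) := h7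
    _ ≤ _ := mul_le_mul_of_nonneg_left h8 (by positivity)

/-- For `α ^ 2 + α < 1` and large `N` an integer `D ≠ 0` has boundedly many representations as the
difference of the squares of two integers from `[N, N + N ^ α]`. -/
theorem few (α : ℝ) (h0 : 1 / 2 ≤ α) (h1 : α ^ 2 + α < 1) :
    ∃ (k : ℕ) (N0 : ℝ), 0 < k ∧ ∀ N : ℝ, N0 ≤ N → 1 ≤ N → ∀ D : ℤ, 0 < D → ∀ x z : Fin k → ℤ,
      (∀ i, N ≤ x i ∧ (x i : ℝ) ≤ N + N ^ α) → (∀ i, N ≤ z i ∧ (z i : ℝ) ≤ N + N ^ α) →
      (∀ i, x i ^ 2 - z i ^ 2 = D) → ¬ Function.Injective (fun i => (x i, z i)) := by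
  obtain ⟨k, B, hBk, hneg⟩ := exists_params α h0 h1
  set e : ℝ := ((1 + α) * (B * (B + 1)) + (2 * α - 1) * (k * (k - 1)) - 2 * α * (B * k)) / 2 with he
  have he0 : 0 < -e := by rw [he]; linarith
  set C : ℝ := 2 ^ (B * k) * 4 ^ (∑ c : Fin k, (B - (c : ℕ))) with hC
  have h2 : Tendsto (fun N : ℝ => C * N ^ (-(-e))) atTop (nhds (C * 0)) :=
    (tendsto_rpow_neg_atTop he0).const_mul C
  rw [mul_zero, neg_neg] at h2
  obtain ⟨N0, hN0⟩ := eventually_atTop.1 (h2.eventually_lt_const (zero_lt_one))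
  refine ⟨k, N0, by omega, ?_⟩
  intro N hN hN1 D hD x z hx hz hD2 hinj
  have hα1 : α ≤ 1 := by nlinarith
  have h3 := bound_core hBk α N hα1 hN1 D hD x z hx hz hD2 hinj
  have h4 := hN0 N hN
  rw [hC, he] at h4
  linarith

end Pool.Agent.R449.HypDiv
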