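import Mathlib

/-!
# Lower level sets of `1_A * 1_A` in `ℤ/N` without long progressions: the construction

Let `g = (12 m)^m`, `u = ⌊N/100⌋ ≥ 4 (m + 1) g`, `q_j = (12 m)^j`, `r_j = (12 m)^(j-1)`.  The set is
`A = [10u, 40u] ∪ [-10u+g, -10u+2g) ∪ [-40u-2g, -40u) ∪ ⋃_j K_j ∪ ⋃_j K'_j` with
`K_j = {5u + 4gj + e : 0 ≤ e ≤ 3g, e mod q_j < r_j}` and
`K'_j = {-5u - 4gj - 3g + e : 0 ≤ e ≤ 3g, e mod q_j < 2 r_j}`, `1 ≤ j ≤ m`.
-/

set_option autoImplicit false

open Finset
open scoped Pointwise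

namespace Pool.Agent.R449.LevelSet

/-- the number of ordered pairs of elements of `A` with sum `x` -/
def rep {N : ℕ} (A : Finset (ZMod N)) (x : ZMod N) : ℕ :=
  ((A ×ˢ A).filter (fun p => p.1 + p.2 = x)).card

/-- `K_j` -/
def KK (u g B j n : ℕ) : Prop := ∃ e, e ≤ 3 * g ∧ e % B ^ j < B ^ (j - 1) ∧ n = 5 * u + 4 * (g * j) + e

/-- `K'_j` -/
def KL (N u g B j n : ℕ) : Prop :=
  ∃ e, e ≤ 3 * g ∧ e % B ^ j < 2 * B ^ (j - 1) ∧ n + 5 * u + 4 * (g * j) + 3 * g = N + e

/-- residues of the elements of `A` -/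
def S (N u g B m n : ℕ) : Prop :=
  (10 * u ≤ n ∧ n ≤ 40 * u) ∨ (N + g ≤ n + 10 * u ∧ n + 10 * u < N + 2 * g) ∨
    (N ≤ n + 40 * u + 2 * g ∧ n + 40 * u < N) ∨ (∃ j, 1 ≤ j ∧ j ≤ m ∧ KK u g B j n) ∨
    (∃ j, 1 ≤ j ∧ j ≤ m ∧ KL N u g B j n)

theorem gj {g j m : ℕ} (h : j ≤ m) : g * j ≤ g * m := Nat.mul_le_mul_left g h

theorem gl {g j l : ℕ} (h : j < l) : g * j + g ≤ g * l := by
  have : g * (j + 1) ≤ g * l := Nat.mul_le_mul_left g h
  rwa [mul_add, mul_one] at this

theorem S_lt {N u g B m n : ℕ} (hg : 1 ≤ g) (hu : 4 * (g * m) + 4 * g ≤ u) (hN1 : 100 * u ≤ N)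
    (h : S N u g B m n) : n < N := by
  rcases h with h | h | h | ⟨j, -, h2, e, he1, he2, he3⟩ | ⟨j, -, h2, e, he1, he2, he3⟩
  · omega
  · omega
  · omega
  · have := gj (g := g) h2
    omega
  · have := gj (g := g) h2
    omega

/-- sums modulo `N` of two elements that lie in `[0, g)` -/
theorem sum_lt {N u g B m x a b : ℕ} (hg : 1 ≤ g) (hgB : ∀ j, 1 ≤ j → j ≤ m → B ^ j ∣ g)
    (hu : 4 * (g * m) + 4 * g ≤ u) (hN1 : 100 * u ≤ N) (hN2 : N < 100 * u + 100) (hu10 : 100 ≤ u)
    (hx : x < g) (ha : S N u g B m a) (hb : S N u g B m b) (h : a + b = x ∨ a + b = x + N) :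
    ∃ j, 1 ≤ j ∧ j ≤ m ∧ x % B ^ j < 3 * B ^ (j - 1) := by
  -- the sum of an element of `K_j` and of an element of `K'_l`
  have key : ∀ j l a b : ℕ, 1 ≤ j → j ≤ m → l ≤ m → KK u g B j a → KL N u g B l b →
      (a + b = x ∨ a + b = x + N) → x % B ^ j < 3 * B ^ (j - 1) := by
    intro j l a b hj hjm hlm hj1 hl1 hab
    obtain ⟨e, he1, he2, he3⟩ := hj1
    obtain ⟨e', he1', he2', he3'⟩ := hl1
    have hgj := gj (g := g) hjm
    have hgl := gj (g := g) hlm
    rcases lt_trichotomy j l with hjl | hjl | hjl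
    · have := gl (g := g) hjl
      exfalso
      omega
    · subst hjl
      have h1 : x + 3 * g = e + e' := by omega
      obtain ⟨t, ht⟩ := hgB j hj hjm
      have h2 : (x + 3 * g) % B ^ j = x % B ^ j := by
        rw [ht, show x + 3 * (B ^ j * t) = x + B ^ j * (3 * t) by ring, Nat.add_mul_mod_self_left]
      rw [← h2, h1, Nat.add_mod]
      refine lt_of_le_of_lt (Nat.mod_le _ _) ?_
      omega
    · have := gl (g := g) hjl
      exfalso
      omega
  rcases ha with ha | ha | ha | ⟨j, hj, hjm, ha⟩ | ⟨j, hj, hjm, ha⟩ <;>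
    rcases hb with hb | hb | hb | ⟨l, hl, hlm, hb⟩ | ⟨l, hl, hlm, hb⟩
  · exfalso; omega
  · exfalso; omega
  · exfalso; omega
  · obtain ⟨e, he1, he2, he3⟩ := hb; have := gj (g := g) hlm; exfalso; omega
  · obtain ⟨e, he1, he2, he3⟩ := hb; have := gj (g := g) hlm; exfalso; omega
  · exfalso; omega
  · exfalso; omega
  · exfalso; omega
  · obtain ⟨e, he1, he2, he3⟩ := hb; have := gj (g := g) hlm; exfalso; omega
  · obtain ⟨e, he1, he2, he3⟩ := hb; have := gj (g := g) hlm; exfalso; omega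
  · exfalso; omega
  · exfalso; omega
  · exfalso; omega
  · obtain ⟨e, he1, he2, he3⟩ := hb; have := gj (g := g) hlm; exfalso; omega
  · obtain ⟨e, he1, he2, he3⟩ := hb; have := gj (g := g) hlm; exfalso; omega
  · obtain ⟨e, he1, he2, he3⟩ := ha; have := gj (g := g) hjm; exfalso; omega
  · obtain ⟨e, he1, he2, he3⟩ := ha; have := gj (g := g) hjm; exfalso; omega
  · obtain ⟨e, he1, he2, he3⟩ := ha; have := gj (g := g) hjm; exfalso; omega
  · obtain ⟨e, he1, he2, he3⟩ := ha; obtain ⟨e', he1', he2', he3'⟩ := hb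
    have := gj (g := g) hjm; have := gj (g := g) hlm; exfalso; omega
  · exact ⟨j, hj, hjm, key j l a b hj hjm hlm ha hb h⟩
  · obtain ⟨e, he1, he2, he3⟩ := ha; have := gj (g := g) hjm; exfalso; omega
  · obtain ⟨e, he1, he2, he3⟩ := ha; have := gj (g := g) hjm; exfalso; omega
  · obtain ⟨e, he1, he2, he3⟩ := ha; have := gj (g := g) hjm; exfalso; omega
  · exact ⟨l, hl, hlm, key l j b a hl hlm hjm hb ha (by omega)⟩
  · obtain ⟨e, he1, he2, he3⟩ := ha; obtain ⟨e', he1', he2', he3'⟩ := hb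
    have := gj (g := g) hjm; have := gj (g := g) hlm; exfalso; omega

/-- the set `A` -/
noncomputable def AA (N u g B m : ℕ) [NeZero N] : Finset (ZMod N) := by
  classical exact univ.filter (fun x => S N u g B m x.val)

theorem mem_AA {N u g B m : ℕ} [NeZero N] {x : ZMod N} : x ∈ AA N u g B m ↔ S N u g B m x.val := by
  unfold AA
  simp

/-- lower bound for the number of representations -/
theorem pop {N u g B m : ℕ} [NeZero N] (hg : 1 ≤ g) (hu : 4 * (g * m) + 4 * g ≤ u)
    (hN1 : 100 * u ≤ N) (x : ZMod N) {ι : Type*} (T : Finset ι) (a b : ι → ℕ)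
    (h : ∀ t ∈ T, S N u g B m (a t) ∧ S N u g B m (b t) ∧ (a t + b t = x.val ∨ a t + b t = x.val + N))
    (hinj : ∀ t ∈ T, ∀ t' ∈ T, a t = a t' → t = t') : T.card ≤ rep (AA N u g B m) x := by
  classical
  unfold rep
  apply card_le_card_of_injOn (fun t => (((a t : ℕ) : ZMod N), ((b t : ℕ) : ZMod N)))
  · intro t ht
    obtain ⟨h1, h2, h3⟩ := h t ht
    have e1 : ((a t : ℕ) : ZMod N).val = a t := ZMod.val_cast_of_lt (S_lt hg hu hN1 h1)
    have e2 : ((b t : ℕ) : ZMod N).val = b t := ZMod.val_cast_of_lt (S_lt hg hu hN1 h2)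
    rw [mem_coe, mem_filter, mem_product, mem_AA, mem_AA]
    refine ⟨⟨by rw [e1]; exact h1, by rw [e2]; exact h2⟩, ?_⟩
    show ((a t : ℕ) : ZMod N) + ((b t : ℕ) : ZMod N) = x
    rw [← Nat.cast_add]
    rcases h3 with h3 | h3
    · rw [h3, ZMod.natCast_zmod_val]
    · rw [h3, Nat.cast_add, ZMod.natCast_self, add_zero, ZMod.natCast_zmod_val]
  · intro t ht t' ht' heq
    have h1 : ((a t : ℕ) : ZMod N) = ((a t' : ℕ) : ZMod N) := congrArg Prod.fst heq
    apply hinj t ht t' ht'
    rw [← ZMod.val_cast_of_lt (S_lt hg hu hN1 (h t ht).1), h1,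
      ZMod.val_cast_of_lt (S_lt hg hu hN1 (h t' ht').1)]

/-- an element with few representations is close to `0` -/
theorem near_zero {N u g B m : ℕ} [NeZero N] (hg : 1 ≤ g) (hu : 4 * (g * m) + 4 * g ≤ u)
    (hN1 : 100 * u ≤ N) (hN2 : N < 100 * u + 100) (hu10 : 100 ≤ u) (x : ZMod N)
    (hx : rep (AA N u g B m) x < g) : x.val < 2 * g ∨ N < x.val + 2 * g := by
  by_contra hcon
  push Not at hcon
  have hxN := ZMod.val_lt x
  have hle : (range g).card ≤ rep (AA N u g B m) x := by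
    by_cases h1 : x.val ≤ 30 * u + g
    · refine pop hg hu hN1 x (range g) (fun k => N + g + k - 10 * u) (fun k => x.val + 10 * u - g - k)
        ?_ ?_
      · intro k hk
        rw [mem_range] at hk
        refine ⟨Or.inr (Or.inl ⟨by omega, by omega⟩), Or.inl ⟨by omega, by omega⟩, Or.inr (by omega)⟩
      · intro k hk k' hk' h
        rw [mem_range] at hk hk'
        omega
    · by_cases h2 : x.val + g ≤ 80 * u
      · by_cases h3 : x.val ≤ 50 * u
        · refine pop hg hu hN1 x (range g) (fun k => 10 * u + k) (fun k => x.val - 10 * u - k) ?_ ?_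
          · intro k hk
            rw [mem_range] at hk
            refine ⟨Or.inl ⟨by omega, by omega⟩, Or.inl ⟨by omega, by omega⟩, Or.inl (by omega)⟩
          · intro k hk k' hk' h
            omega
        · refine pop hg hu hN1 x (range g) (fun k => 40 * u - k) (fun k => x.val + k - 40 * u) ?_ ?_
          · intro k hk
            rw [mem_range] at hk
            refine ⟨Or.inl ⟨by omega, by omega⟩, Or.inl ⟨by omega, by omega⟩, Or.inl (by omega)⟩
          · intro k hk k' hk' h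
            rw [mem_range] at hk hk'
            omega
      · refine pop hg hu hN1 x (range g) (fun k => N - 40 * u - 1 - k)
          (fun k => x.val + 40 * u + 1 + k - N) ?_ ?_
        · intro k hk
          rw [mem_range] at hk
          refine ⟨Or.inr (Or.inr (Or.inl ⟨by omega, by omega⟩)), Or.inl ⟨by omega, by omega⟩,
            Or.inl (by omega)⟩
        · intro k hk k' hk' h
          rw [mem_range] at hk hk'
          omega
  rw [card_range] at hle
  omega

/-- an element `z - 2 g` with `z mod q_j ∈ [r_j, 2 r_j)` has many representations -/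
theorem pop_V {N u g B m : ℕ} [NeZero N] (hg : 1 ≤ g) (hu : 4 * (g * m) + 4 * g ≤ u)
    (hN1 : 100 * u ≤ N) (hB : 2 ≤ B) {j : ℕ} (hj : 1 ≤ j) (hjm : j ≤ m) (hgB : g = B ^ m)
    (x : ZMod N) (z : ℕ) (hz : (x.val < 2 * g ∧ z = x.val + 2 * g) ∨
      (N < x.val + 2 * g ∧ z + N = x.val + 2 * g))
    (h1 : B ^ (j - 1) ≤ z % B ^ j) (h2 : z % B ^ j < 2 * B ^ (j - 1)) :
    B ^ (m - 1) ≤ rep (AA N u g B m) x := by
  classical
  have hxN := ZMod.val_lt x
  have hgt : g = B ^ j * B ^ (m - j) := by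
    rw [hgB, ← pow_add]
    congr 1
    omega
  obtain ⟨q, hq⟩ : ∃ q, q = B ^ j := ⟨_, rfl⟩
  obtain ⟨r, hr⟩ : ∃ r, r = B ^ (j - 1) := ⟨_, rfl⟩
  obtain ⟨t, ht⟩ : ∃ t, t = B ^ (m - j) := ⟨_, rfl⟩
  have hqr : q = B * r := by
    rw [hq, hr, ← pow_succ']
    congr 1
    omega
  have hrpos : 1 ≤ r := by
    rw [hr]
    exact Nat.one_le_pow _ _ (by omega)
  have hrq : 2 * r ≤ q := by
    rw [hqr]
    exact Nat.mul_le_mul_right r hB
  have hqpos : 0 < q := by omega
  rw [← hq, ← ht] at hgt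
  rw [← hq, ← hr] at h1 h2
  have hcard : B ^ (m - 1) = (range t ×ˢ range r).card := by
    rw [card_product, card_range, card_range, ht, hr, ← pow_add]
    congr 1
    omega
  have hgj := gj (g := g) hjm
  rw [hcard]
  have hk : ∀ p ∈ range t ×ˢ range r, q * p.1 + p.2 < g ∧ (q * p.1 + p.2) % q = p.2 := by
    intro p hp
    rw [mem_product, mem_range, mem_range] at hp
    constructor
    · rw [hgt]
      have : q * (p.1 + 1) ≤ q * t := Nat.mul_le_mul_left q hp.1
      rw [mul_add, mul_one] at this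
      omega
    · rw [Nat.mul_add_mod]
      exact Nat.mod_eq_of_lt (by omega)
  have hinjk : ∀ p ∈ range t ×ˢ range r, ∀ p' ∈ range t ×ˢ range r,
      q * p.1 + p.2 = q * p'.1 + p'.2 → p = p' := by
    intro p hp p' hp' h
    have e1 := (hk p hp).2
    have e2 := (hk p' hp').2
    have e3 : p.2 = p'.2 := by rw [← e1, ← e2, h]
    have e4 : q * p.1 = q * p'.1 := by omega
    exact Prod.ext (Nat.eq_of_mul_eq_mul_left hqpos e4) e3
  -- the second residue
  have hsnd : ∀ s e e' : ℕ, e % q < r → e + e' = z + q * s → e' % q < 2 * r := by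
    intro s e e' he hee
    have e1 : (e + e') % q = z % q := by rw [hee, Nat.add_mul_mod_self_left]
    have e2 : e' % q < q := Nat.mod_lt _ hqpos
    rw [Nat.add_mod] at e1
    rcases lt_or_ge (e % q + e' % q) q with h | h
    · rw [Nat.mod_eq_of_lt h] at e1
      omega
    · rw [Nat.mod_eq_sub_mod h, Nat.mod_eq_of_lt (by omega)] at e1
      omega
  rcases hz with ⟨hx, hz⟩ | ⟨hx, hz⟩
  · refine pop hg hu hN1 x (range t ×ˢ range r)
      (fun p => 5 * u + 4 * (g * j) + (2 * g + (q * p.1 + p.2)))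
      (fun p => N + (x.val + g - (q * p.1 + p.2)) - (5 * u + 4 * (g * j) + 3 * g)) ?_ ?_
    · intro p hp
      obtain ⟨k1, k2⟩ := hk p hp
      have hp2 := (mem_product.1 hp).2
      rw [mem_range] at hp2
      have emod : (2 * g + (q * p.1 + p.2)) % q = p.2 := by
        rw [hgt, show 2 * (q * t) + (q * p.1 + p.2) = p.2 + q * (2 * t + p.1) by ring,
          Nat.add_mul_mod_self_left]
        exact Nat.mod_eq_of_lt (by omega)
      refine ⟨?_, ?_, ?_⟩
      · refine Or.inr (Or.inr (Or.inr (Or.inl ⟨j, hj, hjm, 2 * g + (q * p.1 + p.2), by omega, ?_, rfl⟩)))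
        rw [← hq, ← hr, emod]
        exact hp2
      · refine Or.inr (Or.inr (Or.inr (Or.inr ⟨j, hj, hjm, x.val + g - (q * p.1 + p.2), by omega, ?_,
          by omega⟩)))
        rw [← hq, ← hr]
        refine hsnd t (2 * g + (q * p.1 + p.2)) _ (by rw [emod]; exact hp2) ?_
        rw [← hgt]
        omega
      · right
        omega
    · intro p hp p' hp' h
      exact hinjk p hp p' hp' (by omega)
  · refine pop hg hu hN1 x (range t ×ˢ range r)
      (fun p => 5 * u + 4 * (g * j) + (q * p.1 + p.2))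
      (fun p => x.val + 3 * g - (q * p.1 + p.2) - (5 * u + 4 * (g * j) + 3 * g)) ?_ ?_
    · intro p hp
      obtain ⟨k1, k2⟩ := hk p hp
      have hp2 := (mem_product.1 hp).2
      rw [mem_range] at hp2
      refine ⟨?_, ?_, ?_⟩
      · refine Or.inr (Or.inr (Or.inr (Or.inl ⟨j, hj, hjm, q * p.1 + p.2, by omega, ?_, rfl⟩)))
        rw [← hq, ← hr, k2]
        exact hp2
      · refine Or.inr (Or.inr (Or.inr (Or.inr ⟨j, hj, hjm, x.val + 3 * g - N - (q * p.1 + p.2),
          by omega, ?_, by omega⟩)))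
        rw [← hq, ← hr]
        refine hsnd t (q * p.1 + p.2) _ (by rw [k2]; exact hp2) ?_
        rw [← hgt]
        omega
      · left
        omega
    · intro p hp p' hp' h
      exact hinjk p hp p' hp' (by omega)

/-- every integer progression of length `B² + 1` in `[0, 4 B^m)` meets some `[r_j, 2 r_j) mod q_j` -/
theorem hit {B m z δ : ℕ} (hB : 4 ≤ B) (hδ : 1 ≤ δ) (h : z + B ^ 2 * δ < 4 * B ^ m) :
    ∃ i ≤ B ^ 2, ∃ j, 1 ≤ j ∧ j ≤ m ∧ B ^ (j - 1) ≤ (z + i * δ) % B ^ j ∧
      (z + i * δ) % B ^ j < 2 * B ^ (j - 1) := by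
  obtain ⟨l, hl⟩ : ∃ l, l = Nat.clog B δ := ⟨_, rfl⟩
  have hB1 : 1 < B := by omega
  have h1 : δ ≤ B ^ l := by
    rw [hl]
    exact Nat.le_pow_clog hB1 δ
  have h2 : B ^ (l + 1) ≤ δ * B ^ 2 := by
    rcases Nat.eq_or_lt_of_le hδ with hd | hd
    · have : l = 0 := by
        rw [hl, ← hd]
        exact Nat.clog_one_right B
      rw [this, ← hd, zero_add, pow_one, one_mul]
      exact Nat.le_self_pow two_ne_zero B
    · have h3 : B ^ (l - 1) < δ := by
        rw [hl]
        exact Nat.pow_pred_clog_lt_self hB1 hd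
      have h4 : 1 ≤ l := by
        rw [hl]
        exact Nat.clog_pos hB1 hd
      have h5 : B ^ (l + 1) = B ^ (l - 1) * B ^ 2 := by
        rw [← pow_add]
        congr 1
        omega
      rw [h5]
      exact Nat.mul_le_mul_right _ h3.le
  have h3 : l + 1 ≤ m := by
    by_contra hcon
    push Not at hcon
    have h4 : B ^ m ≤ B ^ l := Nat.pow_le_pow_right (by omega) (by omega)
    have h5 : B ^ (l + 1) < 4 * B ^ m := by
      calc B ^ (l + 1) ≤ δ * B ^ 2 := h2
        _ = B ^ 2 * δ := mul_comm _ _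
        _ < 4 * B ^ m := by omega
    have h6 : 4 * B ^ m ≤ B ^ (l + 1) := by
      rw [pow_succ, mul_comm]
      exact Nat.mul_le_mul h4 hB
    omega
  obtain ⟨q, hq⟩ : ∃ q, q = B ^ (l + 1) := ⟨_, rfl⟩
  obtain ⟨r, hr⟩ : ∃ r, r = B ^ l := ⟨_, rfl⟩
  have hqr : q = B * r := by rw [hq, hr, pow_succ']
  have hr1 : 1 ≤ r := by
    rw [hr]
    exact Nat.one_le_pow _ _ (by omega)
  have hrq : 4 * r ≤ q := by
    rw [hqr]
    exact Nat.mul_le_mul_right r hB
  have hqpos : 0 < q := by omega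
  -- the distance to the next integer congruent to `r`
  obtain ⟨D, hD1, hD2⟩ : ∃ D, D < q ∧ (z + D) % q = r := by
    have hz := Nat.mod_lt z hqpos
    rcases le_or_gt (z % q) r with h | h
    · refine ⟨r - z % q, by omega, ?_⟩
      rw [Nat.add_mod, Nat.mod_eq_of_lt (show r - z % q < q by omega),
        Nat.mod_eq_of_lt (by omega)]
      omega
    · refine ⟨r + q - z % q, by omega, ?_⟩
      rw [Nat.add_mod, Nat.mod_eq_of_lt (show r + q - z % q < q by omega), Nat.mod_eq_sub_mod (by omega),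
        Nat.mod_eq_of_lt (by omega)]
      omega
  obtain ⟨i, hi⟩ : ∃ i, i = (D + δ - 1) / δ := ⟨_, rfl⟩
  have hi1 : D ≤ i * δ := by
    have := Nat.div_add_mod (D + δ - 1) δ
    have h4 := Nat.mod_lt (D + δ - 1) hδ
    rw [← hi, mul_comm] at this
    omega
  have hi2 : i * δ < D + δ := by
    have := Nat.div_mul_le_self (D + δ - 1) δ
    rw [← hi] at this
    omega
  have hi3 : i ≤ B ^ 2 := by
    by_contra hcon
    push Not at hcon
    have h4 : (B ^ 2 + 1) * δ ≤ i * δ := Nat.mul_le_mul_right δ hcon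
    rw [add_mul, one_mul] at h4
    rw [← hq, mul_comm] at h2
    omega
  refine ⟨i, hi3, l + 1, by omega, h3, ?_⟩
  rw [Nat.add_sub_cancel, ← hq, ← hr]
  have h4 : (z + i * δ) % q = r + (i * δ - D) := by
    have e1 : z + i * δ = (z + D) + (i * δ - D) := by omega
    have e2 : i * δ - D < q := by omega
    rw [e1, Nat.add_mod, hD2, Nat.mod_eq_of_lt e2, Nat.mod_eq_of_lt (by omega)]
  rw [h4]
  omega

/-- `X ⊆ ℤ/N` contains an arithmetic progression `a, a + d, …, a + (k-1) d` with `d ≠ 0`, `k ≤ N`. -/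
def HasAP {N : ℕ} (X : Set (ZMod N)) (k : ℕ) : Prop :=
  k ≤ N ∧ ∃ a d : ZMod N, d ≠ 0 ∧ ∀ i : ℕ, i < k → a + (i : ZMod N) * d ∈ X

/-- no long progressions in the lower level set -/
theorem no_ap {N u g B m : ℕ} [NeZero N] (hg : 1 ≤ g) (hu : 4 * (g * m) + 4 * g ≤ u)
    (hN1 : 100 * u ≤ N) (hN2 : N < 100 * u + 100) (hu10 : 100 ≤ u) (hB : 4 ≤ B) (hm : 1 ≤ m)
    (hgB : g = B ^ m) : ¬ HasAP {x : ZMod N | rep (AA N u g B m) x < B ^ (m - 1)} (B ^ 2 + 1) := by
  rintro ⟨-, a, d, hd, hap⟩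
  have hle : B ^ (m - 1) ≤ g := by
    rw [hgB]
    exact Nat.pow_le_pow_right (by omega) (by omega)
  have hgm : g ≤ g * m := Nat.le_mul_of_pos_right g hm
  -- integer representatives, shifted by `2g`
  have hz : ∀ i : ℕ, ∃ z : ℕ, i < B ^ 2 + 1 → z < 4 * g ∧
      ((z : ℤ) : ZMod N) = a + (i : ZMod N) * d + ((2 * g : ℕ) : ZMod N) ∧
      (((a + (i : ZMod N) * d).val < 2 * g ∧ z = (a + (i : ZMod N) * d).val + 2 * g) ∨
      (N < (a + (i : ZMod N) * d).val + 2 * g ∧ z + N = (a + (i : ZMod N) * d).val + 2 * g)) := by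
    intro i
    by_cases hi : i < B ^ 2 + 1
    · have h1 := near_zero hg hu hN1 hN2 hu10 (a + (i : ZMod N) * d) (lt_of_lt_of_le (hap i hi) hle)
      have hlt := ZMod.val_lt (a + (i : ZMod N) * d)
      have hcast : (((a + (i : ZMod N) * d).val : ℕ) : ZMod N) = a + (i : ZMod N) * d :=
        ZMod.natCast_zmod_val _
      rcases h1 with h1 | h1
      · refine ⟨(a + (i : ZMod N) * d).val + 2 * g, fun _ => ⟨by omega, ?_, Or.inl ⟨h1, rfl⟩⟩⟩
        rw [Int.cast_natCast, Nat.cast_add, hcast]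
      · obtain ⟨z, hz⟩ : ∃ z, z + N = (a + (i : ZMod N) * d).val + 2 * g :=
          ⟨(a + (i : ZMod N) * d).val + 2 * g - N, by omega⟩
        refine ⟨z, fun _ => ⟨by omega, ?_, Or.inr ⟨h1, hz⟩⟩⟩
        have h2 : ((z + N : ℕ) : ZMod N) = (((a + (i : ZMod N) * d).val + 2 * g : ℕ) : ZMod N) := by
          rw [hz]
        rw [Nat.cast_add, ZMod.natCast_self, add_zero, Nat.cast_add, hcast] at h2
        rw [Int.cast_natCast, h2]
    · exact ⟨0, fun h => absurd h hi⟩
  choose z hz using hz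
  have hB2 : 16 ≤ B ^ 2 := by nlinarith
  -- the differences are constant
  have hD : ∀ i : ℕ, i < B ^ 2 → (z (i + 1) : ℤ) - z i = z 1 - z 0 := by
    intro i hi
    have e0 := hz 0 (by omega)
    have e1 := hz 1 (by omega)
    have ei := hz i (by omega)
    have ei1 := hz (i + 1) (by omega)
    have h1 : (((z (i + 1) : ℤ) - z i - (z 1 - z 0) : ℤ) : ZMod N) = 0 := by
      rw [Int.cast_sub, Int.cast_sub, Int.cast_sub, e0.2.1, e1.2.1, ei.2.1, ei1.2.1]
      push_cast
      ring
    rw [ZMod.intCast_zmod_eq_zero_iff_dvd] at h1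
    obtain ⟨c, hc⟩ := h1
    have h2 : |(z (i + 1) : ℤ) - z i - (z 1 - z 0)| < N := by
      rw [abs_lt]
      have := e0.1; have := e1.1; have := ei.1; have := ei1.1
      constructor <;> omega
    have h3 : c = 0 := by
      by_contra hne
      have h4 : (1 : ℤ) ≤ |c| := Int.one_le_abs hne
      rw [hc, abs_mul, abs_of_nonneg (by positivity : (0 : ℤ) ≤ N)] at h2
      have h5 : (0 : ℤ) < N := by omega
      nlinarith
    rw [h3, mul_zero] at hc
    omega
  have hlin : ∀ i : ℕ, i ≤ B ^ 2 → (z i : ℤ) = z 0 + i * (z 1 - z 0) := by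
    intro i
    induction i with
    | zero => intro _; simp
    | succ i ih =>
      intro hi
      have h1 := ih (by omega)
      have h2 := hD i (by omega)
      push_cast
      linarith
  have hne : (z 1 : ℤ) - z 0 ≠ 0 := by
    intro h0
    have e0 := hz 0 (by omega)
    have e1 := hz 1 (by omega)
    apply hd
    have h1 : ((z 1 : ℤ) : ZMod N) - ((z 0 : ℤ) : ZMod N) = 0 := by
      rw [← Int.cast_sub, h0, Int.cast_zero]
    rw [e0.2.1, e1.2.1] at h1
    have : d = a + ((1 : ℕ) : ZMod N) * d + ((2 * g : ℕ) : ZMod N) -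
        (a + ((0 : ℕ) : ZMod N) * d + ((2 * g : ℕ) : ZMod N)) := by
      push_cast
      ring
    rw [this, h1]
  -- conclusion from a hit
  have hfin : ∀ i ≤ B ^ 2, ∀ j, 1 ≤ j → j ≤ m → B ^ (j - 1) ≤ z i % B ^ j →
      z i % B ^ j < 2 * B ^ (j - 1) → False := by
    intro i hi j hj hjm h1 h2
    have h3 := pop_V hg hu hN1 (by omega) hj hjm hgB (a + (i : ZMod N) * d) (z i)
      (hz i (by omega)).2.2 h1 h2
    have h4 : rep (AA N u g B m) (a + (i : ZMod N) * d) < B ^ (m - 1) := hap i (by omega)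
    omega
  rcases lt_or_gt_of_ne hne with hneg | hpos
  · -- decreasing
    obtain ⟨δ, hδ⟩ : ∃ δ : ℕ, (δ : ℤ) = z 0 - z 1 := ⟨z 0 - z 1, by omega⟩
    have hlast := hlin (B ^ 2) le_rfl
    have hz0 := (hz 0 (by omega)).1
    have h1 : z (B ^ 2) + B ^ 2 * δ = z 0 := by
      zify
      rw [hlast, hδ]
      push_cast
      ring
    obtain ⟨i, hi, j, hj, hjm, h2, h3⟩ := hit (z := z (B ^ 2)) (δ := δ) hB (by omega) (by
      rw [h1, ← hgB]
      exact hz0)
    have h4 : z (B ^ 2 - i) = z (B ^ 2) + i * δ := by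
      have h5 := hlin (B ^ 2 - i) (by omega)
      zify
      rw [h5, hlast, hδ, Nat.cast_sub hi]
      push_cast
      ring
    rw [← h4] at h2 h3
    exact hfin (B ^ 2 - i) (by omega) j hj hjm h2 h3
  · obtain ⟨δ, hδ⟩ : ∃ δ : ℕ, (δ : ℤ) = z 1 - z 0 := ⟨z 1 - z 0, by omega⟩
    have hlast := hlin (B ^ 2) le_rfl
    have hzl := (hz (B ^ 2) (by omega)).1
    obtain ⟨i, hi, j, hj, hjm, h2, h3⟩ := hit (z := z 0) (δ := δ) hB (by omega) (by
      rw [← hgB]
      have : z 0 + B ^ 2 * δ = z (B ^ 2) := by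
        zify
        rw [hlast, hδ]
        push_cast
        ring
      rw [this]
      exact hzl)
    have h4 : z i = z 0 + i * δ := by
      have h5 := hlin i hi
      zify
      rw [h5, hδ]
    rw [← h4] at h2 h3
    exact hfin i hi j hj hjm h2 h3

/-- the sumset misses at least `g/4` elements -/
theorem card_sum {N u g B m : ℕ} [NeZero N] (hg : 1 ≤ g) (hu : 4 * (g * m) + 4 * g ≤ u)
    (hN1 : 100 * u ≤ N) (hN2 : N < 100 * u + 100) (hu10 : 100 ≤ u) (hm : 1 ≤ m)
    (hBm : B = 12 * m) (hgB : g = B ^ m) :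
    4 * (AA N u g B m + AA N u g B m).card + 3 * g ≤ 4 * N := by
  classical
  -- the missed residues
  have hdvd : ∀ j, 1 ≤ j → j ≤ m → B ^ j ∣ g := by
    intro j _ hj
    rw [hgB]
    exact pow_dvd_pow B hj
  obtain ⟨U, hU⟩ : ∃ U : Finset ℕ, U = (Icc 1 m).biUnion
      (fun j => (range g).filter (fun x => x % B ^ j < 3 * B ^ (j - 1))) := ⟨_, rfl⟩
  have hUcard : 4 * U.card ≤ g := by
    have h1 : ∀ j ∈ Icc 1 m, ((range g).filter (fun x => x % B ^ j < 3 * B ^ (j - 1))).card
        ≤ 3 * B ^ (m - 1) := by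
      intro j hj
      rw [mem_Icc] at hj
      obtain ⟨t, ht⟩ : ∃ t, t = B ^ (m - j) := ⟨_, rfl⟩
      have hgt : g = B ^ j * t := by
        rw [ht, hgB, ← pow_add]
        congr 1
        omega
      have hq : 0 < B ^ j := by
        have : 0 < B := by omega
        positivity
      calc ((range g).filter (fun x => x % B ^ j < 3 * B ^ (j - 1))).card
          ≤ (range t ×ˢ range (3 * B ^ (j - 1))).card := by
            apply card_le_card_of_injOn (fun x => (x / B ^ j, x % B ^ j))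
            · intro x hx
              rw [mem_coe, mem_filter, mem_range] at hx
              rw [mem_coe, mem_product, mem_range, mem_range]
              refine ⟨?_, hx.2⟩
              apply Nat.div_lt_of_lt_mul
              rw [← hgt]
              exact hx.1
            · intro x _ y _ h
              have e1 : x / B ^ j = y / B ^ j := congrArg Prod.fst h
              have e2 : x % B ^ j = y % B ^ j := congrArg Prod.snd h
              rw [← Nat.div_add_mod x (B ^ j), ← Nat.div_add_mod y (B ^ j), e1, e2]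
        _ = 3 * B ^ (m - 1) := by
            rw [card_product, card_range, card_range, ht, mul_left_comm, ← pow_add]
            congr 2
            omega
    have h2 : U.card ≤ m * (3 * B ^ (m - 1)) := by
      rw [hU]
      refine card_biUnion_le.trans ?_
      refine (sum_le_card_nsmul _ _ _ h1).trans ?_
      rw [Nat.card_Icc, smul_eq_mul, Nat.add_sub_cancel]
    have h3 : g = 12 * m * B ^ (m - 1) := by
      rw [hgB, ← hBm, ← pow_succ']
      congr 1
      omega
    calc 4 * U.card ≤ 4 * (m * (3 * B ^ (m - 1))) := Nat.mul_le_mul_left 4 h2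
      _ = g := by rw [h3]; ring
  have hsub : ((range g) \ U).image (fun n : ℕ => (n : ZMod N)) ⊆
      univ \ (AA N u g B m + AA N u g B m) := by
    intro x hx
    rw [mem_image] at hx
    obtain ⟨n, hn, rfl⟩ := hx
    rw [mem_sdiff, mem_range] at hn
    rw [mem_sdiff]
    refine ⟨mem_univ _, fun hmem => hn.2 ?_⟩
    rw [mem_add] at hmem
    obtain ⟨a, ha, b, hb, hab⟩ := hmem
    rw [mem_AA] at ha hb
    have hnN : n < N := by
      have hgm : g ≤ g * m := Nat.le_mul_of_pos_right g hm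
      omega
    have h1 : a.val + b.val = n ∨ a.val + b.val = n + N := by
      have h2 := ZMod.val_add a b
      have h3 := ZMod.val_lt a
      have h4 := ZMod.val_lt b
      rw [hab, ZMod.val_cast_of_lt hnN] at h2
      rcases lt_or_ge (a.val + b.val) N with h | h
      · left
        rw [h2, Nat.mod_eq_of_lt h]
      · right
        rw [Nat.mod_eq_sub_mod h, Nat.mod_eq_of_lt (by omega)] at h2
        omega
    obtain ⟨j, hj, hjm, h5⟩ := sum_lt hg hdvd hu hN1 hN2 hu10 hn.1 ha hb h1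
    rw [hU, mem_biUnion]
    exact ⟨j, mem_Icc.2 ⟨hj, hjm⟩, mem_filter.2 ⟨mem_range.2 hn.1, h5⟩⟩
  have hc := card_le_card hsub
  rw [card_image_of_injOn, card_sdiff_of_subset (subset_univ _), card_univ, ZMod.card] at hc
  · have h1 : (range g).card - U.card ≤ ((range g) \ U).card := le_card_sdiff _ _
    rw [card_range] at h1
    have h2 : (AA N u g B m + AA N u g B m).card ≤ N := by
      have := card_le_univ (AA N u g B m + AA N u g B m)
      rwa [ZMod.card] at this
    omega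
  · intro i hi j hj h
    rw [mem_coe, mem_sdiff, mem_range] at hi hj
    have h' : (i : ZMod N) = (j : ZMod N) := h
    have hgm : g ≤ g * m := Nat.le_mul_of_pos_right g hm
    rw [← ZMod.val_cast_of_lt (show i < N by omega), ← ZMod.val_cast_of_lt (show j < N by omega), h']

/-- the set has more than `N/4` elements -/
theorem card_A {N u g B m : ℕ} [NeZero N] (hN1 : 100 * u ≤ N) (hN2 : N < 100 * u + 100)
    (hu10 : 100 ≤ u) : N < 4 * (AA N u g B m).card := by
  have h1 : (Icc (10 * u) (40 * u)).card ≤ (AA N u g B m).card := by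
    apply card_le_card_of_injOn (fun n : ℕ => (n : ZMod N))
    · intro n hn
      rw [mem_coe, mem_Icc] at hn
      rw [mem_coe, mem_AA, ZMod.val_cast_of_lt (by omega)]
      exact Or.inl hn
    · intro i hi j hj h
      rw [mem_coe, mem_Icc] at hi hj
      have h' : (i : ZMod N) = (j : ZMod N) := h
      rw [← ZMod.val_cast_of_lt (show i < N by omega), ← ZMod.val_cast_of_lt (show j < N by omega), h']
  rw [Nat.card_Icc] at h1
  omega

end Pool.Agent.R449.LevelSet
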