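import Mathlib

/-!
# Many solutions of `c² ≡ k²` modulo a product of distinct odd primes
-/

set_option autoImplicit false

open Finset

namespace Pool.Agent.R449.SqRoots

theorem many_roots (P : Finset ℕ) (hP : ∀ p ∈ P, p.Prime ∧ p ≠ 2) (k : ℕ) :
    2 ^ (P.filter (fun p => ¬ p ∣ k)).card ≤
      ((range (∏ p ∈ P, p)).filter (fun c : ℕ => ((∏ p ∈ P, p : ℕ) : ℤ) ∣ (k : ℤ) ^ 2 - (c : ℤ) ^ 2)).card := by
  classical
  have hcop : Set.Pairwise (P : Set ℕ) (Function.onFun Nat.Coprime (fun p : ℕ => p)) := by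
    intro p hp q hq hpq
    exact (Nat.coprime_primes (hP p hp).1 (hP q hq).1).2 hpq
  have hne : ∀ p ∈ P, (fun p : ℕ => p) p ≠ 0 := fun p hp => (hP p hp).1.ne_zero
  let f : Finset ℕ → ℕ → ℕ := fun H p => if p ∈ H then k else k * (p - 1)
  let c : Finset ℕ → ℕ := fun H =>
    (Nat.chineseRemainderOfFinset (f H) (fun p : ℕ => p) P hne hcop : ℕ)
  have hc : ∀ H, ∀ p ∈ P, c H ≡ f H p [MOD p] := fun H =>
    (Nat.chineseRemainderOfFinset (f H) (fun p : ℕ => p) P hne hcop).2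
  have hclt : ∀ H, c H < ∏ p ∈ P, p := fun H =>
    Nat.chineseRemainderOfFinset_lt_prod (f H) (fun p : ℕ => p) hne hcop
  have hpow : 2 ^ (P.filter (fun p => ¬ p ∣ k)).card = ((P.filter (fun p => ¬ p ∣ k)).powerset).card := by
    rw [card_powerset]
  -- congruences as divisibilities in the integers
  have hmem : ∀ H, ∀ p ∈ P, p ∈ H → (p : ℤ) ∣ (k : ℤ) - c H := by
    intro H p hp hpH
    have h1 := hc H p hp
    have h2 : f H p = k := if_pos hpH
    rw [h2] at h1
    exact (Nat.modEq_iff_dvd.1 h1)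
  have hnmem : ∀ H, ∀ p ∈ P, p ∉ H → (p : ℤ) ∣ (k : ℤ) + c H := by
    intro H p hp hpH
    have h1 := hc H p hp
    have h2 : f H p = k * (p - 1) := if_neg hpH
    rw [h2] at h1
    have h3 := Nat.modEq_iff_dvd.1 h1
    have h4 : ((k * (p - 1) : ℕ) : ℤ) = (k : ℤ) * p - k := by
      rw [Nat.cast_mul, Nat.cast_sub (hP p hp).1.one_le]
      push_cast
      ring
    rw [h4] at h3
    have h5 : (k : ℤ) + c H = (k : ℤ) * p - ((k : ℤ) * p - k - c H) := by ring
    rw [h5]
    exact dvd_sub (Dvd.intro_left _ rfl) h3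
  rw [hpow]
  refine card_le_card_of_injOn c ?_ ?_
  · intro H _
    rw [mem_coe, mem_filter, mem_range]
    refine ⟨hclt H, ?_⟩
    push_cast
    apply Finset.prod_dvd_of_coprime
    · intro p hp q hq hpq
      exact Nat.isCoprime_iff_coprime.2 ((Nat.coprime_primes (hP p hp).1 (hP q hq).1).2 hpq)
    · intro p hp
      have h6 : (k : ℤ) ^ 2 - (c H : ℤ) ^ 2 = ((k : ℤ) - c H) * ((k : ℤ) + c H) := by ring
      rw [h6]
      by_cases hpH : p ∈ H
      · exact Dvd.dvd.mul_right (hmem H p hp hpH) _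
      · exact Dvd.dvd.mul_left (hnmem H p hp hpH) _
  · intro H hH H' hH' hHH
    rw [mem_coe, mem_powerset] at hH hH'
    -- a prime in exactly one of the sets divides `2 k`
    have key : ∀ H₁ H₂ : Finset ℕ, H₁ ⊆ P.filter (fun p => ¬ p ∣ k) → c H₁ = c H₂ → H₁ ⊆ H₂ := by
      intro H₁ H₂ h₁ hcc p hp
      by_contra hp2
      have hpP := mem_filter.1 (h₁ hp)
      have d1 := hmem H₁ p hpP.1 hp
      have d2 := hnmem H₂ p hpP.1 hp2
      rw [← hcc] at d2
      have d3 : (p : ℤ) ∣ 2 * (k : ℤ) := by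
        have : 2 * (k : ℤ) = ((k : ℤ) - c H₁) + ((k : ℤ) + c H₁) := by ring
        rw [this]
        exact dvd_add d1 d2
      have d4 : p ∣ 2 * k := by exact_mod_cast d3
      rcases (hP p hpP.1).1.dvd_mul.1 d4 with h | h
      · exact (hP p hpP.1).2 ((Nat.prime_dvd_prime_iff_eq (hP p hpP.1).1 Nat.prime_two).1 h)
      · exact hpP.2 h
    exact Subset.antisymm (key H H' hH hHH) (key H' H hH' hHH.symm)

theorem many_roots_blocks (P : Finset ℕ) (hP : ∀ p ∈ P, p.Prime ∧ p ≠ 2) (k b : ℕ) :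
    b * 2 ^ (P.filter (fun p => ¬ p ∣ k)).card ≤
      ((range (b * ∏ p ∈ P, p)).filter
        (fun c : ℕ => ((∏ p ∈ P, p : ℕ) : ℤ) ∣ (k : ℤ) ^ 2 - (c : ℤ) ^ 2)).card := by
  classical
  set Q := ∏ p ∈ P, p with hQ
  have hQ0 : 0 < Q := prod_pos (fun p hp => (hP p hp).1.pos)
  refine (Nat.mul_le_mul_left b (many_roots P hP k)).trans ?_
  rw [← hQ]
  conv_lhs => rw [← card_range b, ← card_product]
  refine card_le_card_of_injOn (fun x => x.1 * Q + x.2) ?_ ?_
  · rintro ⟨j, c⟩ hx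
    rw [mem_coe, mem_product, mem_range, mem_filter, mem_range] at hx
    rw [mem_coe, mem_filter, mem_range]
    obtain ⟨hj, hc, hd⟩ := hx
    simp only at hj hc hd ⊢
    constructor
    · calc j * Q + c < j * Q + Q := by omega
        _ = (j + 1) * Q := by ring
        _ ≤ b * Q := Nat.mul_le_mul_right Q hj
    · have h1 : (k : ℤ) ^ 2 - ((j * Q + c : ℕ) : ℤ) ^ 2 =
          ((k : ℤ) ^ 2 - (c : ℤ) ^ 2) - (Q : ℤ) * (j * (j * Q + 2 * c)) := by
        push_cast
        ring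
      rw [h1]
      exact dvd_sub hd (Dvd.intro _ rfl)
  · rintro ⟨j, c⟩ hx ⟨j', c'⟩ hx' h
    rw [mem_coe, mem_product, mem_range, mem_filter, mem_range] at hx hx'
    simp only at hx hx' h
    have e1 : (j * Q + c) / Q = (j' * Q + c') / Q := by rw [h]
    rw [mul_comm j, mul_comm j', Nat.mul_add_div hQ0, Nat.mul_add_div hQ0,
      Nat.div_eq_of_lt hx.2.1, Nat.div_eq_of_lt hx'.2.1] at e1
    have e2 : j = j' := by omega
    subst e2
    have e3 : c = c' := by omega
    rw [e3]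

/-- few integers up to `n` are divisible by many elements of `P` -/
theorem few_divisible (P : Finset ℕ) (hP : ∀ p ∈ P, p.Prime) (z h n : ℕ) (hz : 0 < z)
    (hPz : ∀ p ∈ P, z ≤ p) :
    (((Icc 1 n).filter (fun k => h ≤ (P.filter (fun p => p ∣ k)).card)).card : ℝ) ≤
      2 ^ P.card * ((n : ℝ) / z ^ h) := by
  classical
  have hzR : (0 : ℝ) < z := by exact_mod_cast hz
  have h1 : (Icc 1 n).filter (fun k => h ≤ (P.filter (fun p => p ∣ k)).card) ⊆
      (P.powersetCard h).biUnion (fun H => (Icc 1 n).filter (fun k => (∏ p ∈ H, p) ∣ k)) := by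
    intro k hk
    rw [mem_filter] at hk
    obtain ⟨H, hH, hHc⟩ := exists_subset_card_eq hk.2
    rw [mem_biUnion]
    refine ⟨H, mem_powersetCard.2 ⟨hH.trans (filter_subset _ _), hHc⟩, ?_⟩
    rw [mem_filter]
    refine ⟨hk.1, ?_⟩
    apply Finset.prod_primes_dvd
    · intro p hp
      exact (hP p (mem_filter.1 (hH hp)).1).prime
    · intro p hp
      exact (mem_filter.1 (hH hp)).2
  have h2 : ∀ H ∈ P.powersetCard h,
      (((Icc 1 n).filter (fun k => (∏ p ∈ H, p) ∣ k)).card : ℝ) ≤ (n : ℝ) / z ^ h := by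
    intro H hH
    rw [mem_powersetCard] at hH
    have e1 : z ^ h ≤ ∏ p ∈ H, p := by
      rw [← hH.2]
      exact pow_card_le_prod H _ _ (fun p hp => hPz p (hH.1 hp))
    have e2 : ((Icc 1 n).filter (fun k => (∏ p ∈ H, p) ∣ k)).card ≤ n / (∏ p ∈ H, p) := by
      have e3 : (Icc 1 n) = Ioc 0 n := by ext; simp [Nat.lt_iff_add_one_le]
      rw [e3, Nat.Ioc_filter_dvd_card_eq_div]
    calc (((Icc 1 n).filter (fun k => (∏ p ∈ H, p) ∣ k)).card : ℝ) ≤ ((n / (∏ p ∈ H, p) : ℕ) : ℝ) := by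
          exact_mod_cast e2
      _ ≤ (n : ℝ) / ((∏ p ∈ H, p : ℕ) : ℝ) := Nat.cast_div_le
      _ ≤ (n : ℝ) / z ^ h := by
          apply div_le_div_of_nonneg_left (Nat.cast_nonneg _) (by positivity)
          exact_mod_cast e1
  calc (((Icc 1 n).filter (fun k => h ≤ (P.filter (fun p => p ∣ k)).card)).card : ℝ)
      ≤ (((P.powersetCard h).biUnion
        (fun H => (Icc 1 n).filter (fun k => (∏ p ∈ H, p) ∣ k))).card : ℝ) := by
        exact_mod_cast card_le_card h1
    _ ≤ ∑ H ∈ P.powersetCard h, (((Icc 1 n).filter (fun k => (∏ p ∈ H, p) ∣ k)).card : ℝ) := by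
        exact_mod_cast card_biUnion_le
    _ ≤ ∑ H ∈ P.powersetCard h, (n : ℝ) / z ^ h := sum_le_sum h2
    _ = ((P.powersetCard h).card : ℝ) * ((n : ℝ) / z ^ h) := by rw [sum_const, nsmul_eq_mul]
    _ ≤ 2 ^ P.card * ((n : ℝ) / z ^ h) := by
        apply mul_le_mul_of_nonneg_right _ (by positivity)
        have : (P.powersetCard h).card ≤ P.powerset.card :=
          card_le_card (fun H hH => mem_powerset.2 (mem_powersetCard.1 hH).1)
        rw [card_powerset] at this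
        exact_mod_cast this

end Pool.Agent.R449.SqRoots
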