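import Mathlib
import Pool.Agent.R449.HitSet
import Pool.Agent.R449.SqRoots

/-!
# Small sets covering the first `n` squares: the finite inequality
-/

set_option autoImplicit false

open Finset

namespace Pool.Agent.R449.SqCover

open Pool.Agent.R449.HitSet Pool.Agent.R449.SqRoots

theorem cover_finite (n z h b : ℕ) (P : Finset ℕ) (hn : 1 ≤ n) (hb : 0 < b) (hz : 0 < z)
    (hP : ∀ p ∈ P, p.Prime ∧ p ≠ 2) (hPz : ∀ p ∈ P, z ≤ p) :
    ∃ A : Finset ℕ, (∀ k : ℕ, 1 ≤ k → k ≤ n → ∃ a ∈ A, ∃ b ∈ A, a + b = k ^ 2) ∧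
      (A.card : ℝ) ≤ 3 + b * ((∏ p ∈ P, p : ℕ) : ℝ) + 2 ^ P.card * ((n : ℝ) / z ^ h) +
        (((n : ℝ) ^ 2 / ((∏ p ∈ P, p : ℕ) : ℝ) + 1) / (b * 2 ^ (P.card - h))) * Real.log n := by
  classical
  set Q := ∏ p ∈ P, p with hQ
  have hQ0 : 0 < Q := prod_pos (fun p hp => (hP p hp).1.pos)
  set U : Finset ℕ := (range (n ^ 2 + 1)).filter (fun m => Q ∣ m) with hU
  set K : Finset ℕ := (Icc 1 n).filter
    (fun k => b * Q ≤ k ∧ (P.filter (fun p => p ∣ k)).card < h) with hK
  set F : ℕ → Finset ℕ := fun k =>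
    ((range (b * Q)).filter (fun c : ℕ => (Q : ℤ) ∣ (k : ℤ) ^ 2 - (c : ℤ) ^ 2)).image
      (fun c => k ^ 2 - c ^ 2) with hF
  set s : ℕ := b * 2 ^ (P.card - h) with hs
  have hs0 : 0 < s := by positivity
  have hUcard : (U.card : ℝ) ≤ (n : ℝ) ^ 2 / Q + 1 := by
    have h1 : U ⊆ insert 0 ((Ioc 0 (n ^ 2)).filter (fun m => Q ∣ m)) := by
      intro m hm
      rw [hU, mem_filter, mem_range] at hm
      rw [mem_insert, mem_filter, mem_Ioc]
      rcases Nat.eq_zero_or_pos m with h0 | h0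
      · left; exact h0
      · right; exact ⟨⟨h0, by omega⟩, hm.2⟩
    have h2 := (card_le_card h1).trans (card_insert_le _ _)
    rw [Nat.Ioc_filter_dvd_card_eq_div] at h2
    calc (U.card : ℝ) ≤ ((n ^ 2 / Q + 1 : ℕ) : ℝ) := by exact_mod_cast h2
      _ = ((n ^ 2 / Q : ℕ) : ℝ) + 1 := by push_cast; ring
      _ ≤ ((n ^ 2 : ℕ) : ℝ) / Q + 1 := by
          have : ((n ^ 2 / Q : ℕ) : ℝ) ≤ ((n ^ 2 : ℕ) : ℝ) / Q := Nat.cast_div_le
          linarith
      _ = _ := by push_cast; ring
  have hFK : ∀ k ∈ K, F k ⊆ U ∧ s ≤ (F k).card := by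
    intro k hk
    rw [hK, mem_filter, mem_Icc] at hk
    obtain ⟨⟨hk1, hkn⟩, hbk, hkh⟩ := hk
    constructor
    · intro a ha
      rw [hF, mem_image] at ha
      obtain ⟨c, hc, rfl⟩ := ha
      rw [mem_filter, mem_range] at hc
      rw [hU, mem_filter, mem_range]
      have hck : c ≤ k := by omega
      have hck2 : c ^ 2 ≤ k ^ 2 := Nat.pow_le_pow_left hck 2
      have hkn2 : k ^ 2 ≤ n ^ 2 := Nat.pow_le_pow_left hkn 2
      refine ⟨by omega, ?_⟩
      have h1 : ((k ^ 2 - c ^ 2 : ℕ) : ℤ) = (k : ℤ) ^ 2 - (c : ℤ) ^ 2 := by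
        rw [Nat.cast_sub hck2]
        push_cast
        ring
      have h2 : (Q : ℤ) ∣ ((k ^ 2 - c ^ 2 : ℕ) : ℤ) := by
        rw [h1]; exact hc.2
      exact Int.natCast_dvd_natCast.1 h2
    · rw [hF]
      rw [card_image_of_injOn]
      · refine le_trans ?_ (many_roots_blocks P hP k b)
        rw [hs]
        apply Nat.mul_le_mul_left
        apply Nat.pow_le_pow_right (by norm_num)
        have h1 := card_filter_add_card_filter_not (s := P) (fun p => p ∣ k)
        omega
      · intro c hc c' hc' hcc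
        rw [mem_coe, mem_filter, mem_range] at hc hc'
        have h1 : c ^ 2 ≤ k ^ 2 := Nat.pow_le_pow_left (by omega) 2
        have h2 : c' ^ 2 ≤ k ^ 2 := Nat.pow_le_pow_left (by omega) 2
        have h3 : k ^ 2 - c ^ 2 = k ^ 2 - c' ^ 2 := hcc
        have h4 : c ^ 2 = c' ^ 2 := by omega
        exact Nat.pow_left_injective (by norm_num) h4
  obtain ⟨S, -, hSc, hS⟩ := hitting U K F s hs0 hFK
  set T : Finset ℕ := (range (b * Q)).image (fun c => c ^ 2) with hT
  set X : Finset ℕ := (Icc 1 n).filter (fun k => h ≤ (P.filter (fun p => p ∣ k)).card) with hX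
  refine ⟨({0} ∪ T) ∪ (X.image (fun c => c ^ 2) ∪ S), ?_, ?_⟩
  · intro k hk1 hkn
    have h0 : (0 : ℕ) ∈ ({0} ∪ T) ∪ (X.image (fun c => c ^ 2) ∪ S) :=
      mem_union_left _ (mem_union_left _ (mem_singleton_self 0))
    by_cases c1 : k < b * Q
    · refine ⟨k ^ 2, ?_, 0, h0, add_zero _⟩
      apply mem_union_left
      apply mem_union_right
      rw [hT]
      exact mem_image_of_mem _ (mem_range.2 c1)
    by_cases c2 : h ≤ (P.filter (fun p => p ∣ k)).card
    · refine ⟨k ^ 2, ?_, 0, h0, add_zero _⟩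
      apply mem_union_right
      apply mem_union_left
      apply mem_image_of_mem
      rw [hX, mem_filter, mem_Icc]
      exact ⟨⟨hk1, hkn⟩, c2⟩
    · have hkK : k ∈ K := by
        rw [hK, mem_filter, mem_Icc]
        exact ⟨⟨hk1, hkn⟩, by omega, by omega⟩
      obtain ⟨u, hu, huS⟩ := hS k hkK
      rw [hF, mem_image] at hu
      obtain ⟨c, hc, rfl⟩ := hu
      rw [mem_filter, mem_range] at hc
      have hck2 : c ^ 2 ≤ k ^ 2 := Nat.pow_le_pow_left (by omega) 2
      refine ⟨k ^ 2 - c ^ 2, mem_union_right _ (mem_union_right _ huS), c ^ 2, ?_, by omega⟩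
      apply mem_union_left
      apply mem_union_right
      rw [hT]
      exact mem_image_of_mem _ (mem_range.2 hc.1)
  · have c1 : (({0} ∪ T) ∪ (X.image (fun c => c ^ 2) ∪ S)).card ≤ 1 + b * Q + (X.card + S.card) := by
      refine (card_union_le _ _).trans (add_le_add ?_ ?_)
      · refine (card_union_le _ _).trans (add_le_add ?_ ?_)
        · rw [card_singleton]
        · rw [hT]
          refine card_image_le.trans ?_
          rw [card_range]
      · exact (card_union_le _ _).trans (add_le_add card_image_le le_rfl)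
    have c2 : (X.card : ℝ) ≤ 2 ^ P.card * ((n : ℝ) / z ^ h) :=
      few_divisible P (fun p hp => (hP p hp).1) z h n hz hPz
    have c3 : (S.card : ℝ) ≤ (((n : ℝ) ^ 2 / Q + 1) / (b * 2 ^ (P.card - h))) * Real.log n + 2 := by
      refine hSc.trans ?_
      have e1 : (s : ℝ) = b * 2 ^ (P.card - h) := by rw [hs]; push_cast; ring
      have e2 : Real.log K.card ≤ Real.log n := by
        rcases Nat.eq_zero_or_pos K.card with h0 | h0
        · rw [h0, Nat.cast_zero, Real.log_zero]
          exact Real.log_nonneg (by exact_mod_cast hn)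
        · apply Real.log_le_log (by exact_mod_cast h0)
          have : K.card ≤ (Icc 1 n).card := card_filter_le _ _
          rw [Nat.card_Icc, Nat.add_sub_cancel] at this
          exact_mod_cast this
      rw [← e1]
      have e3 : (0 : ℝ) < s := by exact_mod_cast hs0
      have e4 : (0 : ℝ) ≤ (U.card : ℝ) / s := by positivity
      have e5 : (U.card : ℝ) / s ≤ ((n : ℝ) ^ 2 / Q + 1) / s :=
        div_le_div_of_nonneg_right hUcard e3.le
      have e6 : 0 ≤ Real.log n := Real.log_nonneg (by exact_mod_cast hn)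
      have e7 : (U.card : ℝ) / s * Real.log K.card ≤ ((n : ℝ) ^ 2 / Q + 1) / s * Real.log n :=
        mul_le_mul e5 e2 (Real.log_natCast_nonneg _) (e4.trans e5)
      linarith
    have c4 : (((({0} ∪ T) ∪ (X.image (fun c => c ^ 2) ∪ S)).card : ℕ) : ℝ) ≤
        1 + b * Q + (X.card + S.card) := by exact_mod_cast c1
    linarith

end Pool.Agent.R449.SqCover
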