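import Mathlib
import Pool.Agent.R449.SqCover

/-!
# Small sets covering the first `n` squares: asymptotics
-/

set_option autoImplicit false

open Finset Filter

namespace Pool.Agent.R449.SqAsym

/-- the primes in `(z, y]` -/
def PP (z y : ℕ) : Finset ℕ := (range (y + 1)).filter (fun p => p.Prime ∧ z < p)

theorem mem_PP {z y p : ℕ} : p ∈ PP z y ↔ p ≤ y ∧ p.Prime ∧ z < p := by
  unfold PP
  rw [mem_filter, mem_range, Nat.lt_succ_iff]

/-- their product -/
def QQ (z y : ℕ) : ℕ := ∏ p ∈ PP z y, p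

theorem QQ_pos (z y : ℕ) : 0 < QQ z y := prod_pos (fun _ hp => (mem_PP.1 hp).2.1.pos)

theorem QQ_zero (z : ℕ) : QQ z 0 = 1 := by
  unfold QQ
  have : PP z 0 = ∅ := by
    ext p
    rw [mem_PP]
    simp
    intro h
    subst h
    intro h2
    exact absurd h2 Nat.not_prime_zero
  rw [this, prod_empty]

theorem QQ_succ_le (z y : ℕ) : QQ z (y + 1) ≤ (y + 1) * QQ z y := by
  unfold QQ
  have h1 : PP z (y + 1) ⊆ insert (y + 1) (PP z y) := by
    intro p hp
    rw [mem_PP] at hp
    rw [mem_insert, mem_PP]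
    rcases Nat.lt_or_ge y p with h | h
    · left; omega
    · right; exact ⟨h, hp.2⟩
  have h2 : y + 1 ∉ PP z y := by
    rw [mem_PP]; omega
  calc ∏ p ∈ PP z (y + 1), p ≤ ∏ p ∈ insert (y + 1) (PP z y), p := by
        apply prod_le_prod_of_subset_of_one_le' h1
        intro p hp _
        rw [mem_insert, mem_PP] at hp
        rcases hp with h | h
        · omega
        · exact h.2.1.one_le
    _ = (y + 1) * ∏ p ∈ PP z y, p := prod_insert h2

theorem log_QQ_le (z y : ℕ) : Real.log (QQ z y) ≤ (PP z y).card * Real.log y := by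
  unfold QQ
  rw [Nat.cast_prod, Real.log_prod (fun p hp => by
    have := (mem_PP.1 hp).2.1.pos
    positivity), ← nsmul_eq_mul, ← sum_const]
  refine sum_le_sum (fun p hp => Real.log_le_log ?_ ?_)
  · exact_mod_cast (mem_PP.1 hp).2.1.pos
  · exact_mod_cast (mem_PP.1 hp).1

theorem log_QQ_ge (z y : ℕ) : (PP z y).card * Real.log z ≤ Real.log (QQ z y) := by
  unfold QQ
  rw [Nat.cast_prod, Real.log_prod (fun p hp => by
    have := (mem_PP.1 hp).2.1.pos
    positivity), ← nsmul_eq_mul, ← sum_const]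
  refine sum_le_sum (fun p hp => ?_)
  rcases Nat.eq_zero_or_pos z with h | h
  · subst h
    rw [Nat.cast_zero, Real.log_zero]
    exact Real.log_natCast_nonneg _
  · apply Real.log_le_log (by exact_mod_cast h)
    exact_mod_cast (mem_PP.1 hp).2.2.le

theorem theta_le_log_QQ (z y : ℕ) :
    Chebyshev.theta y ≤ Real.log (QQ z y) + Chebyshev.theta z := by
  have h0 : ∀ n : ℕ, Chebyshev.theta n = ∑ p ∈ (range (n + 1)).filter (fun p => p.Prime), Real.log p := by
    intro n
    rw [Chebyshev.theta_eq_sum_Icc, Nat.floor_natCast]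
    apply sum_congr _ (fun _ _ => rfl)
    ext p
    rw [mem_filter, mem_filter, mem_Icc, mem_range, Nat.lt_succ_iff]
    constructor
    · rintro ⟨⟨_, h1⟩, h2⟩; exact ⟨h1, h2⟩
    · rintro ⟨h1, h2⟩; exact ⟨⟨Nat.zero_le _, h1⟩, h2⟩
  rw [h0, h0]
  unfold QQ
  rw [Nat.cast_prod, Real.log_prod (fun p hp => by
    have := (mem_PP.1 hp).2.1.pos
    positivity)]
  have h1 : (range (y + 1)).filter (fun p => p.Prime) ⊆
      PP z y ∪ (range (z + 1)).filter (fun p => p.Prime) := by
    intro p hp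
    rw [mem_filter, mem_range] at hp
    rw [mem_union, mem_PP, mem_filter, mem_range]
    rcases Nat.lt_or_ge z p with h | h
    · left; exact ⟨by omega, hp.2, h⟩
    · right; exact ⟨by omega, hp.2⟩
  calc ∑ p ∈ (range (y + 1)).filter (fun p => p.Prime), Real.log p
      ≤ ∑ p ∈ PP z y ∪ (range (z + 1)).filter (fun p => p.Prime), Real.log p :=
        sum_le_sum_of_subset_of_nonneg h1 (fun p _ _ => Real.log_natCast_nonneg _)
    _ ≤ _ := by
        rw [← sum_union_inter]
        have : 0 ≤ ∑ p ∈ PP z y ∩ (range (z + 1)).filter (fun p => p.Prime), Real.log (p : ℝ) :=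
          sum_nonneg (fun p _ => Real.log_natCast_nonneg _)
        linarith

/-- a Chebyshev type bound: the product of the primes is large -/
theorem exists_const (z : ℕ) : ∃ C : ℝ, 0 ≤ C ∧ ∀ y : ℕ, (y : ℝ) ≤ 2 * Real.log (QQ z y) + C := by
  have h1 : ∀ᶠ x : ℝ in atTop, Real.log (x + 1) ≤ x * (1 / 20) := by
    have h2 : Tendsto (fun x : ℝ => x + 1) atTop atTop := tendsto_atTop_add_const_right _ _ tendsto_id
    have h3 := (Real.isLittleO_log_id_atTop.comp_tendsto h2).bound (show (0 : ℝ) < 1 / 40 by norm_num)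
    filter_upwards [h3, eventually_ge_atTop 1] with x hx hx1
    simp only [Function.comp_apply, id_eq, Real.norm_eq_abs] at hx
    rw [abs_of_nonneg (show (0 : ℝ) ≤ x + 1 by linarith)] at hx
    have := le_abs_self (Real.log (x + 1))
    linarith
  have h2 : ∀ᶠ x : ℝ in atTop, 2 * √x * Real.log x ≤ x * (1 / 20) := by
    have h3 := (isLittleO_log_rpow_atTop (show (0 : ℝ) < 1 / 4 by norm_num)).bound
      (show (0 : ℝ) < 1 / 1 by norm_num)
    have h4 := (tendsto_rpow_atTop (show (0 : ℝ) < 1 / 4 by norm_num)).eventually_ge_atTop 40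
    filter_upwards [h3, h4, eventually_ge_atTop 1] with x hx hx4 hx1
    have hx0 : 0 < x := by linarith
    rw [Real.norm_eq_abs, Real.norm_eq_abs, abs_of_nonneg (Real.log_nonneg hx1),
      abs_of_nonneg (Real.rpow_nonneg hx0.le _)] at hx
    have e1 : √x = x ^ ((1 : ℝ) / 4) * x ^ ((1 : ℝ) / 4) := by
      rw [← Real.rpow_add hx0, Real.sqrt_eq_rpow]
      norm_num
    have e2 : x = x ^ ((1 : ℝ) / 4) * x ^ ((1 : ℝ) / 4) * (x ^ ((1 : ℝ) / 4) * x ^ ((1 : ℝ) / 4)) := by
      rw [← Real.rpow_add hx0, ← Real.rpow_add hx0]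
      norm_num
    obtain ⟨u, hu⟩ : ∃ u, u = x ^ ((1 : ℝ) / 4) := ⟨_, rfl⟩
    rw [← hu] at hx hx4 e1 e2
    have hlog : Real.log x ≤ u := by linarith
    have hu0 : 0 ≤ u := by linarith
    rw [e1]
    calc 2 * (u * u) * Real.log x ≤ 2 * (u * u) * u := mul_le_mul_of_nonneg_left hlog (by positivity)
      _ ≤ (u * u) * (u * u) * (1 / 20) := by nlinarith [mul_nonneg (mul_nonneg hu0 hu0) hu0]
      _ = x * (1 / 20) := by rw [← e2]
  obtain ⟨x0, hx0⟩ := eventually_atTop.1 (h1.and h2)
  refine ⟨max (2 * Chebyshev.theta z) x0, le_max_of_le_left (by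
    have := Chebyshev.theta_nonneg (z : ℝ)
    linarith), fun y => ?_⟩
  have hQ : 0 ≤ Real.log (QQ z y) := Real.log_natCast_nonneg _
  rcases lt_or_ge (y : ℝ) x0 with hy | hy
  · have := le_max_right (2 * Chebyshev.theta z) x0
    linarith
  · have h3 := hx0 y hy
    have h4 := Chebyshev.theta_ge y
    have h5 := theta_le_log_QQ z y
    have h6 := le_max_left (2 * Chebyshev.theta z) x0
    have h7 : 0.6931471803 < Real.log 2 := Real.log_two_gt_d9
    have h8 : (0 : ℝ) ≤ y := Nat.cast_nonneg _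
    nlinarith [h3.1, h3.2]

end Pool.Agent.R449.SqAsym
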