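import Mathlib
import Pool.Agent.R449.SqAsym

/-!
# Small sets covering the first `n` squares: the asymptotic bound
-/

set_option autoImplicit false

open Finset Filter

namespace Pool.Agent.R449.SqMain

open Pool.Agent.R449.SqCover Pool.Agent.R449.SqAsym

theorem ev_conditions (ε C : ℝ) (hε : 0 < ε) (hε1 : ε ≤ 1) (hC : 0 ≤ C) : ∀ᶠ x : ℝ in atTop,
    1 ≤ x ∧ 0 < Real.log x ∧ Real.log (2 * x + C + 1) ≤ (1 + ε) * Real.log x ∧
      Real.log (2 * x + C + 1) ≤ ε * x ∧ Real.log (14 * x) * Real.log x ≤ ε * x := by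
  have h1 := (tendsto_rpow_atTop hε).eventually_ge_atTop 3
  have h2 := (Real.isLittleO_pow_log_id_atTop (n := 2)).bound (show (0 : ℝ) < ε / 2 by positivity)
  filter_upwards [h1, h2, eventually_ge_atTop (C + 15)] with x hx1 hx2 hx3
  have hx0 : 0 < x := by linarith
  have hlog : 1 ≤ Real.log x := by
    rw [Real.le_log_iff_exp_le hx0]
    have := Real.exp_one_lt_d9
    linarith
  simp only [id_eq, Real.norm_eq_abs] at hx2
  rw [abs_of_nonneg (by positivity), abs_of_pos hx0] at hx2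
  have e1 : Real.log (2 * x + C + 1) ≤ (1 + ε) * Real.log x := by
    rw [← Real.log_rpow hx0]
    apply Real.log_le_log (by linarith)
    rw [Real.rpow_add hx0, Real.rpow_one]
    nlinarith
  have e2 : 2 * Real.log x ^ 2 ≤ ε * x := by linarith
  have e3 : Real.log (14 * x) ≤ 2 * Real.log x := by
    rw [two_mul, ← Real.log_mul hx0.ne' hx0.ne']
    apply Real.log_le_log (by positivity)
    nlinarith
  refine ⟨by linarith, by linarith, e1, ?_, ?_⟩
  · refine e1.trans (le_trans ?_ e2)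
    nlinarith
  · calc Real.log (14 * x) * Real.log x ≤ (2 * Real.log x) * Real.log x :=
          mul_le_mul_of_nonneg_right e3 (by linarith)
      _ = 2 * Real.log x ^ 2 := by ring
      _ ≤ ε * x := e2

theorem two_pow_exp (m : ℕ) : (2 : ℝ) ^ m = Real.exp (m * Real.log 2) := by
  rw [Real.exp_nat_mul, Real.exp_log (by norm_num)]

theorem term2 (ε N Q M w m b : ℝ) (hN : 0 < N) (hQ : 0 < Q) (hε : 0 < ε) (hw : 0 ≤ w)
    (hM : M = Real.exp (m * Real.log 2)) (hm : (w - 1) / 2 ≤ m) (hb : b ≤ N / (M * Q)) :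
    b * Q ≤ 2 * (N * Real.exp (-((1 / 2 - ε) * w * Real.log 2))) := by
  have hlog2 : 0 < Real.log 2 := Real.log_pos (by norm_num)
  have hM0 : 0 < M := by rw [hM]; exact Real.exp_pos _
  have h1 : b * Q ≤ N / M := by
    calc b * Q ≤ N / (M * Q) * Q := mul_le_mul_of_nonneg_right hb hQ.le
      _ = N / M := by field_simp
  have h2 : 1 / M ≤ 2 * Real.exp (-((1 / 2 - ε) * w * Real.log 2)) := by
    rw [hM, one_div, ← Real.exp_neg]
    have h3 : (2 : ℝ) = Real.exp (Real.log 2) := (Real.exp_log (by norm_num)).symm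
    rw [h3, ← Real.exp_add, ← h3]
    apply Real.exp_le_exp.2
    have h4 : (1 / 2 - ε) * w - 1 ≤ m := by nlinarith
    have h5 := mul_le_mul_of_nonneg_right h4 hlog2.le
    linarith
  calc b * Q ≤ N / M := h1
    _ = N * (1 / M) := by ring
    _ ≤ N * (2 * Real.exp (-((1 / 2 - ε) * w * Real.log 2))) := mul_le_mul_of_nonneg_left h2 hN.le
    _ = _ := by ring

theorem term3 (ε N : ℝ) (w h z : ℕ) (hN : 0 < N) (hε : 0 < ε) (hz : 0 < z)
    (hzε : 2 * Real.log 2 ≤ ε * Real.log z) (hh : ε * w ≤ h) :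
    2 ^ w * (N / (z : ℝ) ^ h) ≤ N * Real.exp (-((1 / 2 - ε) * w * Real.log 2)) := by
  have hlog2 : 0 < Real.log 2 := Real.log_pos (by norm_num)
  have hW0 : (0 : ℝ) ≤ w := Nat.cast_nonneg _
  have hz0 : (0 : ℝ) < z := by exact_mod_cast hz
  have h1 : (z : ℝ) ^ h = Real.exp (h * Real.log z) := by
    rw [Real.exp_nat_mul, Real.exp_log hz0]
  have h2 : 2 ^ w * (N / (z : ℝ) ^ h) = N * Real.exp (w * Real.log 2 - h * Real.log z) := by
    rw [h1, two_pow_exp, Real.exp_sub]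
    ring
  rw [h2]
  apply mul_le_mul_of_nonneg_left _ hN.le
  apply Real.exp_le_exp.2
  have hlz : 0 ≤ Real.log z := Real.log_natCast_nonneg _
  have h3 : ε * w * Real.log z ≤ h * Real.log z := mul_le_mul_of_nonneg_right hh hlz
  have h4 : (w : ℝ) * (2 * Real.log 2) ≤ w * (ε * Real.log z) :=
    mul_le_mul_of_nonneg_left hzε hW0
  have h5 : 0 ≤ ε * (w * Real.log 2) := mul_nonneg hε.le (mul_nonneg hW0 hlog2.le)
  have h6 : 0 ≤ (w : ℝ) * Real.log 2 := mul_nonneg hW0 hlog2.le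
  linarith

theorem term4 (ε N Q M b : ℝ) (w h m : ℕ) (hN : 1 ≤ N) (hQ : 0 < Q) (hQN : Q ≤ N)
    (hM : M = Real.exp (m * Real.log 2)) (hb2 : N / (M * Q) / 2 ≤ b) (hb : 0 ≤ b)
    (hm : (m : ℝ) ≤ w / 2) (hh : (h : ℝ) ≤ ε * w + 1) :
    (N ^ 2 / Q + 1) / (b * 2 ^ (w - h)) ≤ 8 * (N * Real.exp (-((1 / 2 - ε) * w * Real.log 2))) := by
  have hlog2 : 0 < Real.log 2 := Real.log_pos (by norm_num)
  have hN0 : 0 < N := by linarith
  have hM0 : 0 < M := by rw [hM]; exact Real.exp_pos _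
  have h1 : N ^ 2 / Q + 1 ≤ 2 * N ^ 2 / Q := by
    have h2 : 1 ≤ N ^ 2 / Q := by
      rw [le_div_iff₀ hQ]
      nlinarith
    have h4 : 2 * N ^ 2 / Q = N ^ 2 / Q + N ^ 2 / Q := by ring
    linarith
  have h2 : (2 : ℝ) ^ w / 2 ^ h ≤ 2 ^ (w - h) := by
    rw [div_le_iff₀ (by positivity), ← pow_add]
    exact pow_le_pow_right₀ (by norm_num) (by omega)
  have h3 : N / (M * Q) / 2 * (2 ^ w / 2 ^ h) ≤ b * 2 ^ (w - h) :=
    mul_le_mul hb2 h2 (by positivity) hb
  have h4 : 0 < N / (M * Q) / 2 * ((2 : ℝ) ^ w / 2 ^ h) := by positivity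
  calc (N ^ 2 / Q + 1) / (b * 2 ^ (w - h))
      ≤ (2 * N ^ 2 / Q) / (N / (M * Q) / 2 * (2 ^ w / 2 ^ h)) :=
        div_le_div₀ (by positivity) h1 h4 h3
    _ = 4 * N * (M * 2 ^ h / 2 ^ w) := by
        field_simp
        ring
    _ ≤ 4 * N * (2 * Real.exp (-((1 / 2 - ε) * w * Real.log 2))) := by
        apply mul_le_mul_of_nonneg_left _ (by positivity)
        rw [hM, two_pow_exp h, two_pow_exp w, ← Real.exp_add, ← Real.exp_sub]
        have h5 : (2 : ℝ) * Real.exp (-((1 / 2 - ε) * w * Real.log 2)) =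
            Real.exp (Real.log 2 + -((1 / 2 - ε) * w * Real.log 2)) := by
          rw [Real.exp_add, Real.exp_log (by norm_num)]
        rw [h5]
        apply Real.exp_le_exp.2
        have h6 : (m : ℝ) + h - w ≤ 1 - (1 / 2 - ε) * w := by linarith
        have h7 := mul_le_mul_of_nonneg_right h6 hlog2.le
        linarith
    _ = _ := by ring

theorem final (ε N l lam w : ℝ) (hN : 0 < N) (hl : l = Real.log N) (hl1 : 1 ≤ l)
    (hlm : 0 < lam) (hε : 0 < ε) (hε4 : ε ≤ 1 / 4) (hw2 : (1 - 4 * ε) * l ≤ w * lam)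
    (hfin : Real.log (14 * l) * lam ≤ ε * l) :
    14 * l * (N * Real.exp (-((1 / 2 - ε) * w * Real.log 2))) ≤
      N ^ (1 - (Real.log 2 / 2 - 4 * ε) / lam) := by
  have hlog2 : 0 < Real.log 2 := Real.log_pos (by norm_num)
  have hlog2' : Real.log 2 ≤ 1 := by
    have := Real.log_two_lt_d9
    linarith
  have h14 : 14 * l * (N * Real.exp (-((1 / 2 - ε) * w * Real.log 2))) =
      Real.exp (Real.log (14 * l) + (l - (1 / 2 - ε) * w * Real.log 2)) := by
    rw [Real.exp_add, Real.exp_log (by positivity), Real.exp_sub, Real.exp_neg, hl, Real.exp_log hN]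
    rfl
  rw [h14, Real.rpow_def_of_pos hN, ← hl]
  apply Real.exp_le_exp.2
  have hw4 : (1 - 4 * ε) * (l / lam) ≤ w := by
    rw [← mul_div_assoc, div_le_iff₀ hlm]
    exact hw2
  have hq : 0 ≤ l / lam := by positivity
  have h5 : Real.log (14 * l) ≤ ε * (l / lam) := by
    rw [← mul_div_assoc, le_div_iff₀ hlm]
    exact hfin
  have h6 : (1 / 2 - ε) * Real.log 2 * ((1 - 4 * ε) * (l / lam)) ≤ (1 / 2 - ε) * Real.log 2 * w :=
    mul_le_mul_of_nonneg_left hw4 (mul_nonneg (by linarith) hlog2.le)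
  have h7 : (Real.log 2 / 2 - 3 * ε) * (l / lam) ≤
      (1 / 2 - ε) * Real.log 2 * ((1 - 4 * ε) * (l / lam)) := by
    have h8 : Real.log 2 / 2 - 3 * ε ≤ (1 / 2 - ε) * Real.log 2 * (1 - 4 * ε) := by
      nlinarith [mul_nonneg (sq_nonneg ε) hlog2.le, mul_nonneg hε.le (sub_nonneg.2 hlog2')]
    have := mul_le_mul_of_nonneg_right h8 hq
    linarith
  have h9 : l * (1 - (Real.log 2 / 2 - 4 * ε) / lam) =
      l - (Real.log 2 / 2 - 4 * ε) * (l / lam) := by ring
  rw [h9]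
  linarith

theorem main (ε : ℝ) (hε : 0 < ε) (hε4 : ε ≤ 1 / 4) : ∀ᶠ n : ℕ in atTop,
    ∃ A : Finset ℕ, (∀ k : ℕ, 1 ≤ k → k ≤ n → ∃ a ∈ A, ∃ b ∈ A, a + b = k ^ 2) ∧
      (A.card : ℝ) ≤ (n : ℝ) ^ (1 - (Real.log 2 / 2 - 4 * ε) / Real.log (Real.log n)) := by
  classical
  -- the parameter `z`
  obtain ⟨z, hz2, hzε⟩ : ∃ z : ℕ, 2 ≤ z ∧ 2 * Real.log 2 ≤ ε * Real.log z := by
    refine ⟨⌈(4 : ℝ) ^ (1 / ε)⌉₊ + 2, by omega, ?_⟩
    have h1 : (4 : ℝ) ^ (1 / ε) ≤ ((⌈(4 : ℝ) ^ (1 / ε)⌉₊ + 2 : ℕ) : ℝ) := by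
      push_cast
      linarith [Nat.le_ceil ((4 : ℝ) ^ (1 / ε))]
    have h2 := Real.log_le_log (by positivity) h1
    rw [Real.log_rpow (by norm_num)] at h2
    have h3 : Real.log 4 = 2 * Real.log 2 := by
      rw [show (4 : ℝ) = 2 ^ 2 by norm_num, Real.log_pow]
      push_cast
      ring
    rw [h3] at h2
    calc 2 * Real.log 2 = ε * (1 / ε * (2 * Real.log 2)) := by field_simp
      _ ≤ _ := mul_le_mul_of_nonneg_left h2 hε.le
  obtain ⟨C, hC0, hC⟩ := exists_const z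
  have hlogn : Tendsto (fun n : ℕ => Real.log (n : ℝ)) atTop atTop :=
    Real.tendsto_log_atTop.comp tendsto_natCast_atTop_atTop
  have hev1 := hlogn.eventually (ev_conditions ε C hε (by linarith) hC0)
  have hev2 : ∀ᶠ n : ℕ in atTop, 2 * Real.log n + C + 1 < n := by
    have h1 := Real.isLittleO_log_id_atTop.bound (show (0 : ℝ) < 1 / 4 by norm_num)
    have h2 : ∀ᶠ x : ℝ in atTop, 2 * Real.log x + C + 1 < x := by
      filter_upwards [h1, eventually_ge_atTop (2 * C + 3), eventually_ge_atTop 1] with x hx hx2 hx1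
      simp only [id_eq, Real.norm_eq_abs] at hx
      rw [abs_of_nonneg (Real.log_nonneg hx1), abs_of_pos (by linarith)] at hx
      linarith
    exact tendsto_natCast_atTop_atTop.eventually h2
  filter_upwards [hev1, hev2, eventually_ge_atTop 1] with n hn1 hn2 hn3
  obtain ⟨hl1, hlm, hL1, hL2, hfin⟩ := hn1
  set N : ℝ := (n : ℝ) with hN
  set l : ℝ := Real.log N with hl
  set lam : ℝ := Real.log l with hlam
  set L : ℝ := Real.log (2 * l + C + 1) with hLd
  have hN1 : 1 ≤ N := by rw [hN]; exact_mod_cast hn3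
  have hN0 : 0 < N := by linarith
  have hrp : ∀ t : ℝ, N ^ t = Real.exp (l * t) := fun t => Real.rpow_def_of_pos hN0 t
  -- the parameter `y`
  set y : ℕ := Nat.findGreatest (fun y => (QQ z y : ℝ) ≤ N ^ (1 - 2 * ε)) n with hy
  have hgood : (QQ z y : ℝ) ≤ N ^ (1 - 2 * ε) := by
    exact Nat.findGreatest_spec (P := fun y => (QQ z y : ℝ) ≤ N ^ (1 - 2 * ε)) (m := 0)
      (Nat.zero_le n) (by
        rw [QQ_zero, Nat.cast_one]
        exact Real.one_le_rpow hN1 (by linarith))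
  have hQpos : (0 : ℝ) < QQ z y := by exact_mod_cast QQ_pos z y
  have hlogQ : Real.log (QQ z y) ≤ (1 - 2 * ε) * l := by
    have := Real.log_le_log hQpos hgood
    rw [Real.log_rpow hN0] at this
    exact this
  have hyC : (y : ℝ) ≤ 2 * l + C := by
    have h1 := hC y
    have h2 : 0 ≤ ε * l := mul_nonneg hε.le (by linarith)
    linarith
  have hyn : y < n := by
    have : (y : ℝ) < n := by
      rw [← hN]; linarith
    exact_mod_cast this
  have hbad : N ^ (1 - 2 * ε) < (QQ z (y + 1) : ℝ) := by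
    have := Nat.findGreatest_is_greatest (P := fun y => (QQ z y : ℝ) ≤ N ^ (1 - 2 * ε))
      (n := n) (k := y + 1) (by rw [← hy]; omega) (by omega)
    exact lt_of_not_ge this
  clear_value y
  obtain ⟨w, hw⟩ : ∃ w : ℕ, w = (PP z y).card := ⟨_, rfl⟩
  have hLpos : 0 ≤ L := Real.log_nonneg (by linarith)
  have hw1 : (1 - 3 * ε) * l ≤ w * L := by
    have h1 : (1 - 2 * ε) * l ≤ Real.log ((y + 1) * QQ z y : ℝ) := by
      have h2 : N ^ (1 - 2 * ε) ≤ (y + 1) * QQ z y := by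
        have h3 : (QQ z (y + 1) : ℝ) ≤ (y + 1) * QQ z y := by exact_mod_cast QQ_succ_le z y
        linarith
      have h4 := Real.log_le_log (by positivity) h2
      rwa [Real.log_rpow hN0] at h4
    rw [Real.log_mul (by positivity) hQpos.ne'] at h1
    have h2 : Real.log ((y : ℝ) + 1) ≤ L :=
      Real.log_le_log (by positivity) (by linarith)
    have h3 : Real.log (y : ℝ) ≤ L := by
      rcases Nat.eq_zero_or_pos y with h | h
      · rw [h, Nat.cast_zero, Real.log_zero]; exact hLpos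
      · exact Real.log_le_log (by exact_mod_cast h) (by linarith)
    have h4 := log_QQ_le z y
    rw [← hw] at h4
    have h5 : (w : ℝ) * Real.log y ≤ w * L :=
      mul_le_mul_of_nonneg_left h3 (Nat.cast_nonneg _)
    linarith
  have hw2 : (1 - 4 * ε) * l ≤ w * lam := by
    have h1 : (1 - 3 * ε) * l ≤ w * ((1 + ε) * lam) :=
      hw1.trans (mul_le_mul_of_nonneg_left hL1 (Nat.cast_nonneg _))
    have h2 : (1 - 4 * ε) * (1 + ε) * l ≤ (1 - 3 * ε) * l := by
      apply mul_le_mul_of_nonneg_right _ (by linarith)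
      nlinarith
    have h3 : (1 + ε) * ((1 - 4 * ε) * l) ≤ (1 + ε) * (w * lam) := by linarith
    exact le_of_mul_le_mul_left h3 (by linarith)
  have hw3 : (w : ℝ) * Real.log 2 ≤ ε / 2 * l := by
    have h1 := log_QQ_ge z y
    rw [← hw] at h1
    have h2 : (w : ℝ) * (2 * Real.log 2) ≤ w * (ε * Real.log z) :=
      mul_le_mul_of_nonneg_left hzε (Nat.cast_nonneg _)
    have h3 : (w : ℝ) * Real.log z ≤ (1 - 2 * ε) * l := h1.trans hlogQ
    have h4 := mul_le_mul_of_nonneg_left h3 hε.le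
    have h5 : 0 ≤ ε * (ε * l) := mul_nonneg hε.le (mul_nonneg hε.le (by linarith))
    linarith
  have hlog2 : 0 < Real.log 2 := Real.log_pos (by norm_num)
  have hlog2' : Real.log 2 ≤ 1 := by
    have := Real.log_two_lt_d9
    linarith
  have hW0 : (0 : ℝ) ≤ w := Nat.cast_nonneg _
  have h2pow : ∀ m : ℕ, (2 : ℝ) ^ m = Real.exp (m * Real.log 2) := by
    intro m
    rw [Real.exp_nat_mul, Real.exp_log (by norm_num)]
  -- other parameters
  set h : ℕ := ⌈ε * w⌉₊ with hh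
  have hh1 : ε * w ≤ h := Nat.le_ceil _
  have hh2 : (h : ℝ) ≤ ε * w + 1 := (Nat.ceil_lt_add_one (by positivity)).le
  set m : ℕ := w / 2 with hm
  have hm1 : (m : ℝ) ≤ w / 2 := Nat.cast_div_le
  have hm2 : ((w : ℝ) - 1) / 2 ≤ m := by
    have : w ≤ 2 * m + 1 := by omega
    have : (w : ℝ) ≤ 2 * m + 1 := by exact_mod_cast this
    linarith
  set M : ℝ := 2 ^ m with hM
  have hM0 : 0 < M := by positivity
  have hMexp : M = Real.exp (m * Real.log 2) := h2pow m
  set Q : ℝ := (QQ z y : ℝ) with hQ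
  have hMQ : M * Q ≤ N := by
    have h1 : M ≤ N ^ (ε / 2) := by
      rw [hMexp, hrp]
      apply Real.exp_le_exp.2
      have : (m : ℝ) * Real.log 2 ≤ w * Real.log 2 :=
        mul_le_mul_of_nonneg_right (by linarith) hlog2.le
      linarith
    calc M * Q ≤ N ^ (ε / 2) * N ^ (1 - 2 * ε) := mul_le_mul h1 hgood hQpos.le (by positivity)
      _ = N ^ (ε / 2 + (1 - 2 * ε)) := (Real.rpow_add hN0 _ _).symm
      _ ≤ N ^ (1 : ℝ) := Real.rpow_le_rpow_of_exponent_le hN1 (by linarith)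
      _ = N := Real.rpow_one N
  have hMQ0 : 0 < M * Q := by positivity
  have hQN : Q ≤ N := by
    calc Q ≤ N ^ (1 - 2 * ε) := hgood
      _ ≤ N ^ (1 : ℝ) := Real.rpow_le_rpow_of_exponent_le hN1 (by linarith)
      _ = N := Real.rpow_one N
  set b : ℕ := ⌊N / (M * Q)⌋₊ with hb
  have hq1 : 1 ≤ N / (M * Q) := by
    rw [le_div_iff₀ hMQ0]; linarith
  have hb0 : 0 < b := by
    rw [hb]
    exact Nat.floor_pos.2 hq1
  have hb1 : (b : ℝ) ≤ N / (M * Q) := Nat.floor_le (by positivity)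
  have hb2 : N / (M * Q) / 2 ≤ b := by
    have h1 : N / (M * Q) < b + 1 := Nat.lt_floor_add_one _
    have h2 : (1 : ℝ) ≤ b := by exact_mod_cast hb0
    linarith
  clear_value b h
  obtain ⟨A, hA, hAc⟩ := cover_finite n z h b (PP z y) hn3 hb0 (by omega)
    (fun p hp => ⟨(mem_PP.1 hp).2.1, by have := (mem_PP.1 hp).2.2; omega⟩)
    (fun p hp => (mem_PP.1 hp).2.2.le)
  refine ⟨A, hA, ?_⟩
  have hQ2 : ((∏ p ∈ PP z y, p : ℕ) : ℝ) = Q := rfl
  rw [hQ2, ← hw, ← hN, ← hl] at hAc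
  refine hAc.trans ?_
  clear hAc hA A hQ2
  clear_value Q M m
  set D : ℝ := Real.exp (-((1 / 2 - ε) * w * Real.log 2)) with hD
  have hD0 : 0 < D := Real.exp_pos _
  have hND : 1 ≤ N * D := by
    have h1 : N = Real.exp l := (Real.exp_log hN0).symm
    rw [h1, hD, ← Real.exp_add]
    apply Real.one_le_exp
    have h2 : 0 ≤ ε * (w * Real.log 2) := mul_nonneg hε.le (mul_nonneg hW0 hlog2.le)
    have h3 : 0 ≤ (1 - ε) * l := mul_nonneg (by linarith) (by linarith)
    linarith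
  have hsum : 3 + (b : ℝ) * Q + 2 ^ w * (N / (z : ℝ) ^ h) +
      (N ^ 2 / Q + 1) / (b * 2 ^ (w - h)) * l ≤ 14 * l * (N * D) := by
    have t2 := term2 ε N Q M w m b hN0 hQpos hε hW0 hMexp hm2 hb1
    have t3 := term3 ε N w h z hN0 hε (by omega) hzε hh1
    have t4 := term4 ε N Q M b w h m hN1 hQpos hQN hMexp hb2 (Nat.cast_nonneg _) hm1 hh2
    rw [← hD] at t2 t3 t4
    clear_value D
    have h1 := mul_le_mul_of_nonneg_right t4 (show (0 : ℝ) ≤ l by linarith)
    have h2 : N * D ≤ l * (N * D) := le_mul_of_one_le_left (by linarith) hl1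
    linarith
  exact hsum.trans (final ε N l lam w hN0 hl hl1 hlm hε hε4 hw2 hfin)

end Pool.Agent.R449.SqMain
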